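import Pool.Agent.helper95.T5.SpecE

set_option autoImplicit false

namespace Pool.Agent.T5

open Finset NumberField Pool.Agent.helper3.FT Pool.Agent.helper47.RA

theorem BXA_sq_le {a b : ℝ} (ha : 0 ≤ a) (hb : 0 ≤ b) (h : a ^ 2 ≤ b ^ 2) : a ≤ b :=
  (pow_le_pow_iff_left₀ ha hb two_ne_zero).1 h

/-- the common last step of `BXA` and `BXB` -/
theorem BXA_core (x y n k mg h P Pi D aa d1 d2 : ℝ) (hx : 1 ≤ x) (hy : 1 ≤ y) (hn : 1 ≤ n) (hk : 1 ≤ k)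
    (hh : 1 ≤ h) (hP : 0 ≤ P) (hmg2 : mg ≤ (64 * (y ^ 2 * n)) ^ 2)
    (hH1 : n ^ 3 * k ≤ 1000 * h * x ^ 4) (hH2 : h ≤ 2 * (n * k)) (hE : y ^ 2 * n ^ 2 * k ≤ 512 * P)
    (hPi : 0 ≤ Pi) (hD : 0 ≤ D) (haa : 0 ≤ aa) (haaPi : aa ≤ Pi) (hd1 : 0 ≤ d1) (hd2 : 0 ≤ d2)
    (h1 : Pi * (x ^ 4 * y ^ 2 / n) ^ 2 ≤ d1 ^ 2 * P ^ 2)
    (h2 : D * (x ^ 4 * y ^ 4 * (n * k)) ≤ d2 ^ 2 * P ^ 2) :
    √mg / h * (h * n * k + √Pi * (√(h * n * k) + n * k) + √(h * D + aa) * (n * k)) ≤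
      (32768 + 192000 * d1 + 64 * (32 * d2 + 1000 * d1)) * P := by
  have hx0 : 0 < x := by linarith
  have hy0 : 0 < y := by linarith
  have hn0 : 0 < n := by linarith
  have hk0 : 0 < k := by linarith
  have hh0 : 0 < h := by linarith
  have hs : √mg ≤ 64 * (y ^ 2 * n) := by
    rw [show (64 : ℝ) * (y ^ 2 * n) = √((64 * (y ^ 2 * n)) ^ 2) from (Real.sqrt_sq (by positivity)).symm]
    exact Real.sqrt_le_sqrt hmg2
  set E : ℝ := y ^ 2 * n ^ 2 * k with hEdef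
  have hE0 : 0 < E := by positivity
  set W : ℝ := x ^ 4 * y ^ 2 / n with hW
  have hW0 : 0 < W := by positivity
  have hEW : E / h ≤ 1000 * W := by
    rw [div_le_iff₀ hh0, hW, hEdef]
    have h3 : y ^ 2 * (n ^ 3 * k) ≤ y ^ 2 * (1000 * h * x ^ 4) := mul_le_mul_of_nonneg_left hH1 (by positivity)
    have h4 : 1000 * (x ^ 4 * y ^ 2 / n) * h = (y ^ 2 * (1000 * h * x ^ 4)) / n := by
      field_simp
    rw [h4, le_div_iff₀ hn0]
    nlinarith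
  -- second term
  have hT2 : √Pi * W ≤ d1 * P := by
    apply BXA_sq_le (by positivity) (by positivity)
    rw [mul_pow, mul_pow, Real.sq_sqrt hPi]
    exact h1
  have hsq : √(h * n * k) ≤ 2 * (n * k) := by
    rw [show (2 : ℝ) * (n * k) = √((2 * (n * k)) ^ 2) from (Real.sqrt_sq (by positivity)).symm]
    apply Real.sqrt_le_sqrt
    have h3 : h * (n * k) ≤ 2 * (n * k) * (n * k) := mul_le_mul_of_nonneg_right hH2 (by positivity)
    nlinarith [mul_pos hn0 hk0]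
  -- third term
  have hT3 : √(h * D + aa) * (E / h) ≤ (32 * d2 + 1000 * d1) * P := by
    apply BXA_sq_le (by positivity) (by positivity)
    rw [mul_pow, Real.sq_sqrt (by positivity)]
    have h3 : (h * D + aa) * (E / h) ^ 2 = D * (E ^ 2 / h) + aa * (E / h) ^ 2 := by
      field_simp
    rw [h3]
    have h4 : E ^ 2 / h ≤ 1000 * (x ^ 4 * y ^ 4 * (n * k)) := by
      rw [div_le_iff₀ hh0, hEdef]
      have h5 : (y ^ 4 * n * k) * (n ^ 3 * k) ≤ (y ^ 4 * n * k) * (1000 * h * x ^ 4) :=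
        mul_le_mul_of_nonneg_left hH1 (by positivity)
      nlinarith
    have h5 : D * (E ^ 2 / h) ≤ 1000 * (d2 ^ 2 * P ^ 2) := by
      calc D * (E ^ 2 / h) ≤ D * (1000 * (x ^ 4 * y ^ 4 * (n * k))) := mul_le_mul_of_nonneg_left h4 hD
        _ = 1000 * (D * (x ^ 4 * y ^ 4 * (n * k))) := by ring
        _ ≤ _ := by linarith
    have h6 : aa * (E / h) ^ 2 ≤ 1000 ^ 2 * (d1 ^ 2 * P ^ 2) := by
      have h7 : (E / h) ^ 2 ≤ (1000 * W) ^ 2 := pow_le_pow_left₀ (by positivity) hEW 2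
      calc aa * (E / h) ^ 2 ≤ Pi * (1000 * W) ^ 2 := mul_le_mul haaPi h7 (by positivity) hPi
        _ = 1000 ^ 2 * (Pi * W ^ 2) := by ring
        _ ≤ _ := by linarith
    have h8 : 0 ≤ d1 * d2 * P ^ 2 := by positivity
    have h9 : 0 ≤ d2 ^ 2 * P ^ 2 := by positivity
    nlinarith
  have e1 : √mg / h * (h * n * k + √Pi * (√(h * n * k) + n * k) + √(h * D + aa) * (n * k)) =
      √mg * (n * k) + √mg / h * (√Pi * (√(h * n * k) + n * k)) + √mg / h * (√(h * D + aa) * (n * k)) := by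
    field_simp
  rw [e1]
  have g1 : √mg * (n * k) ≤ 32768 * P := by
    calc √mg * (n * k) ≤ 64 * (y ^ 2 * n) * (n * k) := mul_le_mul_of_nonneg_right hs (by positivity)
      _ = 64 * E := by rw [hEdef]; ring
      _ ≤ 32768 * P := by linarith
  have hsh : √mg / h ≤ 64 * (y ^ 2 * n) / h := div_le_div_of_nonneg_right hs hh0.le
  have g2 : √mg / h * (√Pi * (√(h * n * k) + n * k)) ≤ 192000 * d1 * P := by
    have hsp : 0 ≤ √Pi := Real.sqrt_nonneg _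
    calc √mg / h * (√Pi * (√(h * n * k) + n * k))
        ≤ 64 * (y ^ 2 * n) / h * (√Pi * (2 * (n * k) + n * k)) := by
          apply mul_le_mul hsh _ (by positivity) (by positivity)
          apply mul_le_mul_of_nonneg_left _ hsp
          linarith
      _ = 192 * (√Pi * (E / h)) := by rw [hEdef]; ring
      _ ≤ 192 * (√Pi * (1000 * W)) := by
          apply mul_le_mul_of_nonneg_left _ (by norm_num)
          exact mul_le_mul_of_nonneg_left hEW hsp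
      _ = 192000 * (√Pi * W) := by ring
      _ ≤ 192000 * (d1 * P) := by linarith
      _ = _ := by ring
  have g3 : √mg / h * (√(h * D + aa) * (n * k)) ≤ 64 * (32 * d2 + 1000 * d1) * P := by
    calc √mg / h * (√(h * D + aa) * (n * k))
        ≤ 64 * (y ^ 2 * n) / h * (√(h * D + aa) * (n * k)) :=
          mul_le_mul_of_nonneg_right hsh (by positivity)
      _ = 64 * (√(h * D + aa) * (E / h)) := by rw [hEdef]; ring
      _ ≤ 64 * ((32 * d2 + 1000 * d1) * P) := by linarith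
      _ = _ := by ring
  linarith

theorem BXA_SB {x y S : ℝ} (hx : 1 ≤ x) (hy : 1 ≤ y) (hS : 0 < S) :
    x ^ 4 * y ^ 4 ≤ SB x y S ∧ x ^ 6 ≤ SB x y S ∧ y ^ 6 * S ≤ SB x y S ∧ x ^ 5 * y * S ≤ SB x y S ∧
    y ^ 6 * x * S ^ 2 ≤ SB x y S ∧ x ^ 6 * y * S ^ 2 ≤ SB x y S ∧ x ^ 7 * S ^ 2 ≤ SB x y S ∧
    x ^ 6 * y ^ 2 * S ^ 3 ≤ SB x y S ∧ x ^ 7 * y * S ^ 3 ≤ SB x y S := by
  have hx0 : 0 < x := by linarith
  have hy0 : 0 < y := by linarith
  have p1 : 0 < x ^ 4 * y ^ 4 := by positivity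
  have p2 : 0 < x ^ 6 := by positivity
  have p3 : 0 < y ^ 6 * S := by positivity
  have p4 : 0 < x ^ 5 * y * S := by positivity
  have p5 : 0 < y ^ 6 * x * S ^ 2 := by positivity
  have p6 : 0 < x ^ 6 * y * S ^ 2 := by positivity
  have p7 : 0 < x ^ 7 * S ^ 2 := by positivity
  have p8 : 0 < x ^ 6 * y ^ 2 * S ^ 3 := by positivity
  have p9 : 0 < x ^ 7 * y * S ^ 3 := by positivity
  have e : SB x y S = x ^ 4 * y ^ 4 + x ^ 6 + y ^ 6 * S + x ^ 5 * y * S + y ^ 6 * x * S ^ 2 +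
      x ^ 6 * y * S ^ 2 + x ^ 7 * S ^ 2 + x ^ 6 * y ^ 2 * S ^ 3 + x ^ 7 * y * S ^ 3 := by
    unfold SB
    ring
  rw [e]
  refine ⟨?_, ?_, ?_, ?_, ?_, ?_, ?_, ?_, ?_⟩ <;> linarith

/-- the real bounds behind `Sides` -/
theorem BXA_sides {x y S : ℝ} {N₁ K₁ M G H : ℕ} (hB : BXH x y S N₁ K₁ M G H) :
    32 * (H : ℝ) * G / (N₁ : ℝ) ^ 3 + (K₁ : ℝ) ^ 3 / M ≤ 104 * ((N₁ : ℝ) * K₁ * y ^ 4 / x ^ 6) ∧
    32 * (H : ℝ) * M / (N₁ : ℝ) ^ 3 + 2 * (N₁ : ℝ) ^ 2 * K₁ / M + (K₁ : ℝ) ^ 3 / G ≤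
      46 * ((N₁ : ℝ) * K₁ / x ^ 2) ∧
    5 * (N₁ : ℝ) ^ 3 / M ≤ 5 * ((N₁ : ℝ) ^ 2 / x ^ 2) ∧
    (N₁ : ℝ) ^ 3 / G ≤ (N₁ : ℝ) ^ 2 * x ^ 2 / y ^ 4 ∧ 0 < (M : ℝ) ∧ 0 < (G : ℝ) := by
  obtain ⟨hx, hy, hS, hS1, hn, hk, hh, hn2, hk2, hkn, hm1, hm2, hg1, hg2, hH1, hH2⟩ := hB
  have hx0 : 0 < x := by linarith
  have hy0 : 0 < y := by linarith
  have hn' : (1 : ℝ) ≤ N₁ := by exact_mod_cast hn
  have hk' : (1 : ℝ) ≤ K₁ := by exact_mod_cast hk
  have hh' : (1 : ℝ) ≤ H := by exact_mod_cast hh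
  generalize (N₁ : ℝ) = n at *
  generalize (K₁ : ℝ) = k at *
  generalize (H : ℝ) = h at *
  generalize (M : ℝ) = m at *
  generalize (G : ℝ) = g at *
  have hn0 : 0 < n := by linarith
  have hk0 : 0 < k := by linarith
  have hm0 : 0 < m := lt_of_lt_of_le (by positivity) hm1
  have hxg : 0 < x ^ 2 * g := lt_of_lt_of_le (by positivity) hg1
  have hg0 : 0 < g := pos_of_mul_pos_right hxg (by positivity)
  have hkk : x ^ 4 * k ^ 2 ≤ 4 * y ^ 4 * n ^ 2 := by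
    have := pow_le_pow_left₀ (by positivity) hkn 2
    nlinarith
  have a1 : 32 * h * g / n ^ 3 ≤ 100 * (n * k * y ^ 4 / x ^ 6) := by
    rw [show 100 * (n * k * y ^ 4 / x ^ 6) = (100 * (n * k * y ^ 4)) / x ^ 6 by ring,
      div_le_div_iff₀ (by positivity) (by positivity)]
    have h3 : (32 * h * x ^ 4) * (x ^ 2 * g) ≤ (n ^ 3 * k) * (100 * (y ^ 4 * n)) :=
      mul_le_mul hH2 hg2 (by positivity) (by positivity)
    nlinarith
  have a2 : k ^ 3 / m ≤ 4 * (n * k * y ^ 4 / x ^ 6) := by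
    rw [show 4 * (n * k * y ^ 4 / x ^ 6) = (4 * (n * k * y ^ 4)) / x ^ 6 by ring,
      div_le_div_iff₀ hm0 (by positivity)]
    have h3 : (k * x ^ 2) * (x ^ 4 * k ^ 2) ≤ (k * x ^ 2) * (4 * y ^ 4 * n ^ 2) :=
      mul_le_mul_of_nonneg_left hkk (by positivity)
    have h4 : (4 * (n * k * y ^ 4)) * (x ^ 2 * n) ≤ (4 * (n * k * y ^ 4)) * m :=
      mul_le_mul_of_nonneg_left hm1 (by positivity)
    nlinarith
  have b1 : 32 * h * m / n ^ 3 ≤ 40 * (n * k / x ^ 2) := by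
    rw [show 40 * (n * k / x ^ 2) = (40 * (n * k)) / x ^ 2 by ring,
      div_le_div_iff₀ (by positivity) (by positivity)]
    have h3 : (32 * h * x ^ 4) * m ≤ (n ^ 3 * k) * (40 * (x ^ 2 * n)) :=
      mul_le_mul hH2 hm2 (by positivity) (by positivity)
    have h4 : x ^ 2 * (32 * h * m * x ^ 2) ≤ x ^ 2 * (40 * (n * k) * n ^ 3) := by nlinarith
    exact le_of_mul_le_mul_left h4 (by positivity)
  have b2 : 2 * n ^ 2 * k / m ≤ 2 * (n * k / x ^ 2) := by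
    rw [show 2 * (n * k / x ^ 2) = (2 * (n * k)) / x ^ 2 by ring,
      div_le_div_iff₀ hm0 (by positivity)]
    have h4 : (2 * (n * k)) * (x ^ 2 * n) ≤ (2 * (n * k)) * m :=
      mul_le_mul_of_nonneg_left hm1 (by positivity)
    nlinarith
  have b3 : k ^ 3 / g ≤ 4 * (n * k / x ^ 2) := by
    rw [show 4 * (n * k / x ^ 2) = (4 * (n * k)) / x ^ 2 by ring,
      div_le_div_iff₀ hg0 (by positivity)]
    have h3 : k * (x ^ 4 * k ^ 2) ≤ k * (4 * y ^ 4 * n ^ 2) :=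
      mul_le_mul_of_nonneg_left hkk (by positivity)
    have h4 : (4 * (n * k)) * (y ^ 4 * n) ≤ (4 * (n * k)) * (x ^ 2 * g) :=
      mul_le_mul_of_nonneg_left hg1 (by positivity)
    have h5 : x ^ 2 * (k ^ 3 * x ^ 2) ≤ x ^ 2 * (4 * (n * k) * g) := by nlinarith
    exact le_of_mul_le_mul_left h5 (by positivity)
  have c1 : 5 * n ^ 3 / m ≤ 5 * (n ^ 2 / x ^ 2) := by
    rw [show 5 * (n ^ 2 / x ^ 2) = (5 * n ^ 2) / x ^ 2 by ring,
      div_le_div_iff₀ hm0 (by positivity)]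
    have h4 : (5 * n ^ 2) * (x ^ 2 * n) ≤ (5 * n ^ 2) * m :=
      mul_le_mul_of_nonneg_left hm1 (by positivity)
    nlinarith
  have c2 : n ^ 3 / g ≤ n ^ 2 * x ^ 2 / y ^ 4 := by
    rw [div_le_div_iff₀ hg0 (by positivity)]
    have h4 : n ^ 2 * (y ^ 4 * n) ≤ n ^ 2 * (x ^ 2 * g) :=
      mul_le_mul_of_nonneg_left hg1 (by positivity)
    nlinarith
  exact ⟨by linarith, by linarith, c1, c2, hm0, hg0⟩

theorem BXA_sqrtMG {x y S : ℝ} {N₁ K₁ M G H : ℕ} (hB : BXH x y S N₁ K₁ M G H) :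
    (M : ℝ) * G ≤ (64 * (y ^ 2 * N₁)) ^ 2 := by
  obtain ⟨hx, hy, hS, hS1, hn, hk, hh, hn2, hk2, hkn, hm1, hm2, hg1, hg2, hH1, hH2⟩ := hB
  have hx0 : 0 < x := by linarith
  have hy0 : 0 < y := by linarith
  have hn' : (1 : ℝ) ≤ N₁ := by exact_mod_cast hn
  have hn0 : (0 : ℝ) < N₁ := by linarith
  have h3 : (M : ℝ) * (x ^ 2 * G) ≤ (40 * (x ^ 2 * N₁)) * (100 * (y ^ 4 * N₁)) :=
    mul_le_mul hm2 hg2 (by positivity) (by positivity)
  have h4 : x ^ 2 * ((M : ℝ) * G) ≤ x ^ 2 * (64 * (y ^ 2 * N₁)) ^ 2 := by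
    have h5 : 0 ≤ x ^ 2 * (y ^ 4 * (N₁ : ℝ) ^ 2) := by positivity
    nlinarith
  exact le_of_mul_le_mul_left h4 (by positivity)

/-- bounds of monomials that hold in both regimes -/
theorem BXA_mon {x y S n k P : ℝ} (hx : 1 ≤ x) (hy : 1 ≤ y) (hS : 0 < S) (hS1 : S ≤ 1) (hn : 1 ≤ n) (hk : 1 ≤ k)
    (hn2 : n ≤ 8 * x ^ 2 * S) (hk2 : k ≤ 8 * y ^ 2 * S) (hP0 : 0 < P)
    (p1 : x ^ 4 * y ^ 4 ≤ P) (p3 : y ^ 6 * S ≤ P) (p5 : y ^ 6 * x * S ^ 2 ≤ P) (p6 : x ^ 6 * y * S ^ 2 ≤ P)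
    (p8 : x ^ 6 * y ^ 2 * S ^ 3 ≤ P) (p9 : x ^ 7 * y * S ^ 3 ≤ P) :
    n ^ 4 * k ^ 2 * y ^ 4 ≤ 262144 * P ^ 2 ∧ n ^ 4 * k ^ 2 * x ^ 4 ≤ 262144 * P ^ 2 ∧
    n ^ 5 * k * x ^ 4 ≤ 262144 * P ^ 2 ∧ n ^ 2 * k ^ 2 * y ^ 8 / x ^ 2 ≤ 262144 * P ^ 2 ∧
    n ^ 2 * k ^ 2 * x ^ 2 * y ^ 4 ≤ 262144 * P ^ 2 ∧ n ^ 3 * k * x ^ 2 * y ^ 2 ≤ 262144 * P ^ 2 ∧
    n ^ 3 * k * x ^ 6 ≤ 262144 * P ^ 2 ∧ n * k * x ^ 4 * y ^ 4 ≤ 262144 * P ^ 2 ∧
    k ^ 2 * y ^ 8 ≤ 262144 * P ^ 2 ∧ y ^ 2 * n ^ 2 * k ≤ 512 * P := by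
  have hx0 : 0 < x := by linarith
  have hy0 : 0 < y := by linarith
  have hn0 : 0 < n := by linarith
  have hk0 : 0 < k := by linarith
  have hone : ∀ i j : ℕ, 1 ≤ x ^ i * y ^ j := fun i j =>
    one_le_mul_of_one_le_of_one_le (one_le_pow₀ hx) (one_le_pow₀ hy)
  have hSp : ∀ i : ℕ, S ^ i ≤ 1 := fun i => pow_le_one₀ hS.le hS1
  have hSpos : ∀ i : ℕ, 0 < S ^ i := fun i => pow_pos hS i
  have q1 : (x ^ 4 * y ^ 4) ^ 2 ≤ P ^ 2 := pow_le_pow_left₀ (by positivity) p1 2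
  have q3 : (y ^ 6 * S) ^ 2 ≤ P ^ 2 := pow_le_pow_left₀ (by positivity) p3 2
  have q5 : (y ^ 6 * x * S ^ 2) ^ 2 ≤ P ^ 2 := pow_le_pow_left₀ (by positivity) p5 2
  have q6 : (x ^ 6 * y * S ^ 2) ^ 2 ≤ P ^ 2 := pow_le_pow_left₀ (by positivity) p6 2
  have q8 : (x ^ 6 * y ^ 2 * S ^ 3) ^ 2 ≤ P ^ 2 := pow_le_pow_left₀ (by positivity) p8 2
  have q9 : (x ^ 7 * y * S ^ 3) ^ 2 ≤ P ^ 2 := pow_le_pow_left₀ (by positivity) p9 2
  have hP2 : 0 < P ^ 2 := by positivity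
  refine ⟨?_, ?_, ?_, ?_, ?_, ?_, ?_, ?_, ?_, ?_⟩
  · calc n ^ 4 * k ^ 2 * y ^ 4 ≤ (8 * x ^ 2 * S) ^ 4 * (8 * y ^ 2 * S) ^ 2 * y ^ 4 := by gcongr
      _ = 262144 * ((x ^ 4 * y ^ 4) ^ 2 * S ^ 6) := by ring
      _ ≤ 262144 * ((x ^ 4 * y ^ 4) ^ 2 * 1) := by
          have := hSp 6
          gcongr
      _ ≤ 262144 * P ^ 2 := by linarith
  · calc n ^ 4 * k ^ 2 * x ^ 4 ≤ (8 * x ^ 2 * S) ^ 4 * (8 * y ^ 2 * S) ^ 2 * x ^ 4 := by gcongr
      _ = 262144 * (x ^ 6 * y ^ 2 * S ^ 3) ^ 2 := by ring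
      _ ≤ 262144 * P ^ 2 := by linarith
  · calc n ^ 5 * k * x ^ 4 ≤ (8 * x ^ 2 * S) ^ 5 * (8 * y ^ 2 * S) * x ^ 4 := by gcongr
      _ = 262144 * (x ^ 7 * y * S ^ 3) ^ 2 := by ring
      _ ≤ 262144 * P ^ 2 := by linarith
  · calc n ^ 2 * k ^ 2 * y ^ 8 / x ^ 2 ≤ (8 * x ^ 2 * S) ^ 2 * (8 * y ^ 2 * S) ^ 2 * y ^ 8 / x ^ 2 := by gcongr
      _ = 4096 * (y ^ 6 * x * S ^ 2) ^ 2 := by
          field_simp
          ring
      _ ≤ 262144 * P ^ 2 := by linarith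
  · calc n ^ 2 * k ^ 2 * x ^ 2 * y ^ 4 ≤ (8 * x ^ 2 * S) ^ 2 * (8 * y ^ 2 * S) ^ 2 * x ^ 2 * y ^ 4 := by gcongr
      _ = 4096 * (x ^ 6 * y ^ 8 * 1 * S ^ 4) := by ring
      _ ≤ 4096 * (x ^ 6 * y ^ 8 * (x ^ 2 * y ^ 0) * 1) := by
          have h1 := hSp 4
          have h2 := hone 2 0
          gcongr
      _ = 4096 * (x ^ 4 * y ^ 4) ^ 2 := by ring
      _ ≤ 262144 * P ^ 2 := by linarith
  · calc n ^ 3 * k * x ^ 2 * y ^ 2 ≤ (8 * x ^ 2 * S) ^ 3 * (8 * y ^ 2 * S) * x ^ 2 * y ^ 2 := by gcongr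
      _ = 4096 * (x ^ 8 * y ^ 4 * 1 * S ^ 4) := by ring
      _ ≤ 4096 * (x ^ 8 * y ^ 4 * (x ^ 0 * y ^ 4) * 1) := by
          have h1 := hSp 4
          have h2 := hone 0 4
          gcongr
      _ = 4096 * (x ^ 4 * y ^ 4) ^ 2 := by ring
      _ ≤ 262144 * P ^ 2 := by linarith
  · calc n ^ 3 * k * x ^ 6 ≤ (8 * x ^ 2 * S) ^ 3 * (8 * y ^ 2 * S) * x ^ 6 := by gcongr
      _ = 4096 * (x ^ 6 * y * S ^ 2) ^ 2 := by ring
      _ ≤ 262144 * P ^ 2 := by linarith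
  · calc n * k * x ^ 4 * y ^ 4 ≤ (8 * x ^ 2 * S) * (8 * y ^ 2 * S) * x ^ 4 * y ^ 4 := by gcongr
      _ = 64 * (x ^ 6 * y ^ 6 * 1 * S ^ 2) := by ring
      _ ≤ 64 * (x ^ 6 * y ^ 6 * (x ^ 2 * y ^ 2) * 1) := by
          have h1 := hSp 2
          have h2 := hone 2 2
          gcongr
      _ = 64 * (x ^ 4 * y ^ 4) ^ 2 := by ring
      _ ≤ 262144 * P ^ 2 := by linarith
  · calc k ^ 2 * y ^ 8 ≤ (8 * y ^ 2 * S) ^ 2 * y ^ 8 := by gcongr
      _ = 64 * (y ^ 6 * S) ^ 2 := by ring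
      _ ≤ 262144 * P ^ 2 := by linarith
  · calc y ^ 2 * n ^ 2 * k ≤ y ^ 2 * (8 * x ^ 2 * S) ^ 2 * (8 * y ^ 2 * S) := by gcongr
      _ = 512 * (x ^ 4 * y ^ 4 * S ^ 3) := by ring
      _ ≤ 512 * (x ^ 4 * y ^ 4 * 1) := by
          have := hSp 3
          gcongr
      _ ≤ 512 * P := by linarith

theorem BXA_size {x y S n k : ℝ} (hx : 1 ≤ x) (hy : 1 ≤ y) (hS1 : S ≤ 1) (hn : 1 ≤ n) (hk : 1 ≤ k)
    (hn2 : n ≤ 8 * x ^ 2 * S) (hk2 : k ≤ 8 * y ^ 2 * S) :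
    n * k * y ^ 4 / x ^ 6 ≤ 64 * (x * y) ^ 8 ∧ n * k / x ^ 2 ≤ 64 * (x * y) ^ 8 ∧
    n ^ 2 / x ^ 2 ≤ 64 * (x * y) ^ 8 ∧ n ^ 2 * x ^ 2 / y ^ 4 ≤ 64 * (x * y) ^ 8 ∧ n / k ≤ 64 * (x * y) ^ 8 ∧
    1 ≤ (x * y) ^ 8 := by
  have hx0 : 0 < x := by linarith
  have hy0 : 0 < y := by linarith
  have hn0 : 0 < n := by linarith
  have hk0 : 0 < k := by linarith
  have hone : ∀ i j : ℕ, 1 ≤ x ^ i * y ^ j := fun i j =>
    one_le_mul_of_one_le_of_one_le (one_le_pow₀ hx) (one_le_pow₀ hy)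
  have hn3 : n ≤ 8 * x ^ 2 := hn2.trans (by nlinarith [sq_nonneg x])
  have hk3 : k ≤ 8 * y ^ 2 := hk2.trans (by nlinarith [sq_nonneg y])
  refine ⟨?_, ?_, ?_, ?_, ?_, ?_⟩
  · rw [div_le_iff₀ (by positivity)]
    calc n * k * y ^ 4 ≤ (8 * x ^ 2) * (8 * y ^ 2) * y ^ 4 := by gcongr
      _ = 64 * (x ^ 2 * y ^ 6) * 1 := by ring
      _ ≤ 64 * (x ^ 2 * y ^ 6) * (x ^ 12 * y ^ 2) := by
          have := hone 12 2
          gcongr
      _ = _ := by ring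
  · rw [div_le_iff₀ (by positivity)]
    calc n * k ≤ (8 * x ^ 2) * (8 * y ^ 2) := by gcongr
      _ = 64 * (x ^ 2 * y ^ 2) * 1 := by ring
      _ ≤ 64 * (x ^ 2 * y ^ 2) * (x ^ 8 * y ^ 6) := by
          have := hone 8 6
          gcongr
      _ = _ := by ring
  · rw [div_le_iff₀ (by positivity)]
    calc n ^ 2 ≤ (8 * x ^ 2) ^ 2 := by gcongr
      _ = 64 * (x ^ 4) * 1 := by ring
      _ ≤ 64 * (x ^ 4) * (x ^ 6 * y ^ 8) := by
          have := hone 6 8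
          gcongr
      _ = _ := by ring
  · rw [div_le_iff₀ (by positivity)]
    calc n ^ 2 * x ^ 2 ≤ (8 * x ^ 2) ^ 2 * x ^ 2 := by gcongr
      _ = 64 * (x ^ 6) * 1 := by ring
      _ ≤ 64 * (x ^ 6) * (x ^ 2 * y ^ 12) := by
          have := hone 2 12
          gcongr
      _ = _ := by ring
  · rw [div_le_iff₀ hk0]
    calc n ≤ 8 * x ^ 2 := hn3
      _ = 8 * (x ^ 2) * 1 * 1 := by ring
      _ ≤ 64 * (x ^ 2) * (x ^ 6 * y ^ 8) * k := by
          have := hone 6 8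
          gcongr
          norm_num
      _ = _ := by ring
  · rw [mul_pow]
    exact hone 8 8

/-- `BXA` with explicit constants -/
theorem BXA : BXA_stmt := by
  refine ⟨32768 + 192000 * 10 ^ 7 + 64 * (32 * 10 ^ 5 + 1000 * 10 ^ 7), by norm_num, ?_⟩
  intro x y S N₁ K₁ M G H hB hreg
  obtain ⟨s0, s1, s2, s3, hM0, hG0⟩ := BXA_sides hB
  have hmg := BXA_sqrtMG hB
  obtain ⟨hx, hy, hS, hS1, hn, hk, hh, hn2, hk2, hkn, hm1, hm2, hg1, hg2, hH1, hH2⟩ := hB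
  obtain ⟨p1, p2, p3, p4, p5, p6, p7, p8, p9⟩ := BXA_SB hx hy hS
  have hx0 : 0 < x := by linarith
  have hy0 : 0 < y := by linarith
  have hn' : (1 : ℝ) ≤ N₁ := by exact_mod_cast hn
  have hk' : (1 : ℝ) ≤ K₁ := by exact_mod_cast hk
  have hh' : (1 : ℝ) ≤ H := by exact_mod_cast hh
  have hP0 : 0 < SB x y S := lt_of_lt_of_le (by positivity) p1
  obtain ⟨r1, r2, r3, r4, r5, r6, r7, r8, r9, r10⟩ :=
    BXA_mon hx hy hS hS1 hn' hk' hn2 hk2 hP0 p1 p3 p5 p6 p8 p9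
  obtain ⟨z1, z2, z3, z4, z5, z6⟩ := BXA_size hx hy hS1 hn' hk' hn2 hk2
  set n : ℝ := (N₁ : ℝ) with hndef
  set k : ℝ := (K₁ : ℝ) with hkdef
  set h : ℝ := (H : ℝ) with hhdef
  set P : ℝ := SB x y S with hPdef
  have hn0 : 0 < n := by linarith
  have hk0 : 0 < k := by linarith
  have hh0 : 0 < h := by linarith
  set A : ℝ := n * k * y ^ 4 / x ^ 6 with hA
  set A' : ℝ := n * k / x ^ 2 with hA'
  set B : ℝ := n ^ 2 / x ^ 2 with hBd
  set X : ℝ := n ^ 2 * x ^ 2 / y ^ 4 with hX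
  have hA0 : 0 < A := by positivity
  have hA'0 : 0 < A' := by positivity
  have hB0 : 0 < B := by positivity
  have hX0 : 0 < X := by positivity
  have hA'1 : 1 ≤ A' := by
    rw [hA', le_div_iff₀ (by positivity)]
    linarith
  set a0 : ℕ := ⌈104 * A⌉₊ with ha0
  set a1 : ℕ := ⌈46 * A'⌉₊ with ha1
  set a2 : ℕ := ⌈4 * n * a1 / k + 5 * B⌉₊ with ha2
  set a3 : ℕ := ⌈X⌉₊ with ha3
  have u0 : (a0 : ℝ) ≤ 104 * A + 1 := (Nat.ceil_lt_add_one (by positivity)).le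
  have u1 : (a1 : ℝ) ≤ 47 * A' := by
    have := (Nat.ceil_lt_add_one (a := 46 * A') (by positivity)).le
    linarith
  have u2 : (a2 : ℝ) ≤ 193 * B + 1 := by
    have h1 := (Nat.ceil_lt_add_one (a := 4 * n * a1 / k + 5 * B) (by positivity)).le
    have h2 : 4 * n * a1 / k ≤ 188 * B := by
      rw [div_le_iff₀ hk0]
      calc 4 * n * a1 ≤ 4 * n * (47 * A') := by gcongr
        _ = 188 * B * k := by
            rw [hA', hBd]
            ring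
    linarith
  have u3 : (a3 : ℝ) ≤ X + 1 := (Nat.ceil_lt_add_one (by positivity)).le
  refine ⟨![a0, a1, a2, a3], ⟨?_, ?_, ?_, ?_⟩, ?_, ?_⟩
  · simp only [Matrix.cons_val_zero, Nat.cast_one, mul_one]
    exact s0.trans (Nat.le_ceil _)
  · simp only [Matrix.cons_val_one, Matrix.cons_val_zero, Nat.cast_one, mul_one, one_mul]
    exact s1.trans (Nat.le_ceil _)
  · simp only [Matrix.cons_val_one, Matrix.cons_val_zero, Matrix.cons_val, Nat.cast_one, mul_one]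
    exact (add_le_add le_rfl s2).trans (Nat.le_ceil _)
  · simp only [Matrix.cons_val, Nat.cast_one, mul_one]
    exact s3.trans (Nat.le_ceil _)
  · have hbig : ∀ t : ℝ, t ≤ 193 * (64 * (x * y) ^ 8) + 1 →
        t ≤ (32768 + 192000 * 10 ^ 7 + 64 * (32 * 10 ^ 5 + 1000 * 10 ^ 7)) * (x * y) ^ 8 := by
      intro t ht
      have h0 : 0 < (x * y) ^ 8 := by positivity
      linarith only [ht, z6, h0]
    intro i
    fin_cases i
    · exact hbig _ (by show (a0 : ℝ) ≤ _; linarith only [u0, z1, z6])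
    · exact hbig _ (by show (a1 : ℝ) ≤ _; linarith only [u1, z2, z6])
    · exact hbig _ (by show (a2 : ℝ) ≤ _; linarith only [u2, z3, z6])
    · exact hbig _ (by show (a3 : ℝ) ≤ _; linarith only [u3, z4, z6])
  · set W : ℝ := x ^ 4 * y ^ 2 / n with hW
    have m1 : A' * W ^ 2 ≤ 262144 * P ^ 2 := by
      have e1 : A' * W ^ 2 = x ^ 6 * y ^ 4 * k / n := by
        rw [hA', hW]
        field_simp
      rw [e1, div_le_iff₀ hn0]
      have h1 : (x ^ 4 * y ^ 4) * (x ^ 2 * k) ≤ (x ^ 4 * y ^ 4) * (2 * y ^ 2 * n) :=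
        mul_le_mul_of_nonneg_left hkn (by positivity)
      have h2 : x ^ 4 * y ^ 6 * 1 ≤ x ^ 4 * y ^ 6 * (x ^ 4 * y ^ 2) := by
        apply mul_le_mul_of_nonneg_left _ (by positivity)
        exact one_le_mul_of_one_le_of_one_le (one_le_pow₀ hx) (one_le_pow₀ hy)
      have h3 : (x ^ 4 * y ^ 4) ^ 2 ≤ P ^ 2 := pow_le_pow_left₀ (by positivity) p1 2
      have h4 : x ^ 4 * y ^ 6 ≤ P ^ 2 := by nlinarith
      have h5 : 0 < P ^ 2 := by positivity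
      calc x ^ 6 * y ^ 4 * k = (x ^ 4 * y ^ 4) * (x ^ 2 * k) := by ring
        _ ≤ (x ^ 4 * y ^ 4) * (2 * y ^ 2 * n) := h1
        _ = 2 * (x ^ 4 * y ^ 6) * n := by ring
        _ ≤ 2 * P ^ 2 * n := by gcongr
        _ ≤ 262144 * P ^ 2 * n := by
            gcongr
            norm_num
    have m2 : A * A' * W ^ 2 ≤ 262144 * P ^ 2 := by
      have e1 : A * A' * W ^ 2 = k ^ 2 * y ^ 8 := by
        rw [hA', hA, hW]
        field_simp
      rw [e1]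
      exact r9
    have m3 : A' * B * W ^ 2 ≤ 262144 * P ^ 2 := by
      have e1 : A' * B * W ^ 2 = n * k * x ^ 4 * y ^ 4 := by
        rw [hA', hBd, hW]
        field_simp
      rw [e1]
      exact r8
    have m4 : A' * X * W ^ 2 ≤ 262144 * P ^ 2 := by
      have e1 : A' * X * W ^ 2 = n * k * x ^ 8 := by
        rw [hA', hX, hW]
        field_simp
      rw [e1]
      have h3 : (x ^ 5 * y * S) ^ 2 ≤ P ^ 2 := pow_le_pow_left₀ (by positivity) p4 2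
      calc n * k * x ^ 8 ≤ (8 * x ^ 2 * S) * (8 * y ^ 2 * S) * x ^ 8 := by gcongr
        _ = 64 * (x ^ 5 * y * S) ^ 2 := by ring
        _ ≤ 262144 * P ^ 2 := by
            have : 0 < P ^ 2 := by positivity
            linarith
    have m5 : A * A' * B * W ^ 2 ≤ 262144 * P ^ 2 := by
      have e1 : A * A' * B * W ^ 2 = n ^ 2 * k ^ 2 * y ^ 8 / x ^ 2 := by
        rw [hA', hA, hBd, hW]
        field_simp
      rw [e1]
      exact r4
    have m6 : A * A' * X * W ^ 2 ≤ 262144 * P ^ 2 := by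
      have e1 : A * A' * X * W ^ 2 = n ^ 2 * k ^ 2 * x ^ 2 * y ^ 4 := by
        rw [hA', hA, hX, hW]
        field_simp
      rw [e1]
      exact r5
    have m7 : A' * B * X * W ^ 2 ≤ 262144 * P ^ 2 := by
      have e1 : A' * B * X * W ^ 2 = n ^ 3 * k * x ^ 6 := by
        rw [hA', hBd, hX, hW]
        field_simp
      rw [e1]
      exact r7
    have m8 : A * A' * B * X * W ^ 2 ≤ 262144 * P ^ 2 := by
      have e1 : A * A' * B * X * W ^ 2 = n ^ 4 * k ^ 2 * y ^ 4 := by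
        rw [hA', hA, hBd, hX, hW]
        field_simp
      rw [e1]
      exact r1
    set T : ℝ := x ^ 4 * y ^ 4 * (n * k) with hT
    have t1 : A * X * T ≤ 262144 * P ^ 2 := by
      have e1 : A * X * T = n ^ 4 * k ^ 2 * y ^ 4 := by
        rw [hA, hX, hT]
        field_simp
      rw [e1]
      exact r1
    have t2 : A' * B * T ≤ 262144 * P ^ 2 := by
      have e1 : A' * B * T = n ^ 4 * k ^ 2 * y ^ 4 := by
        rw [hA', hBd, hT]
        field_simp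
      rw [e1]
      exact r1
    have t3 : A' * X * T ≤ 262144 * P ^ 2 := by
      have e1 : A' * X * T = n ^ 4 * k ^ 2 * x ^ 4 := by
        rw [hA', hX, hT]
        field_simp
      rw [e1]
      exact r2
    have t4 : B * X * T ≤ 262144 * P ^ 2 := by
      have e1 : B * X * T = n ^ 5 * k * x ^ 4 := by
        rw [hBd, hX, hT]
        field_simp
      rw [e1]
      exact r3
    have t5 : A * T ≤ 262144 * P ^ 2 := by
      have e1 : A * T = n ^ 2 * k ^ 2 * y ^ 8 / x ^ 2 := by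
        rw [hA, hT]
        field_simp
      rw [e1]
      exact r4
    have t6 : A' * T ≤ 262144 * P ^ 2 := by
      have e1 : A' * T = n ^ 2 * k ^ 2 * x ^ 2 * y ^ 4 := by
        rw [hA', hT]
        field_simp
      rw [e1]
      exact r5
    have t7 : B * T ≤ 262144 * P ^ 2 := by
      have e1 : B * T = n ^ 3 * k * x ^ 2 * y ^ 4 := by
        rw [hBd, hT]
        field_simp
      rw [e1]
      have h3 : (x ^ 4 * y ^ 4) ^ 2 ≤ P ^ 2 := pow_le_pow_left₀ (by positivity) p1 2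
      have hSp : S ^ 4 ≤ 1 := pow_le_one₀ hS.le hS1
      have h2 : 1 ≤ x ^ 0 * y ^ 2 := one_le_mul_of_one_le_of_one_le (one_le_pow₀ hx) (one_le_pow₀ hy)
      calc n ^ 3 * k * x ^ 2 * y ^ 4 ≤ (8 * x ^ 2 * S) ^ 3 * (8 * y ^ 2 * S) * x ^ 2 * y ^ 4 := by gcongr
        _ = 4096 * (x ^ 8 * y ^ 6 * 1 * S ^ 4) := by ring
        _ ≤ 4096 * (x ^ 8 * y ^ 6 * (x ^ 0 * y ^ 2) * 1) := by gcongr
        _ = 4096 * (x ^ 4 * y ^ 4) ^ 2 := by ring
        _ ≤ 262144 * P ^ 2 := by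
            have : 0 < P ^ 2 := by positivity
            linarith
    have t8 : X * T ≤ 262144 * P ^ 2 := by
      have e1 : X * T = n ^ 3 * k * x ^ 6 := by
        rw [hX, hT]
        field_simp
      rw [e1]
      exact r7
    have t9 : T ≤ 262144 * P ^ 2 := by
      have e1 : T = n * k * x ^ 4 * y ^ 4 := by
        rw [hT]
        ring
      rw [e1]
      exact r8
    have hT0 : 0 < T := by positivity
    have hW2 : 0 < W ^ 2 := by positivity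
    have hP2 : 0 < P ^ 2 := by positivity
    have hH2' : h ≤ 2 * (n * k) := by
      have hnS : n ^ 2 ≤ 64 * x ^ 4 := by
        have h1 : n ≤ 8 * x ^ 2 := by
          have h0 : 8 * x ^ 2 * S ≤ 8 * x ^ 2 * 1 := by gcongr
          linarith only [h0, hn2]
        have h2 := pow_le_pow_left₀ hn0.le h1 2
        linarith only [h2]
      have h3 : x ^ 4 * (32 * h) ≤ x ^ 4 * (64 * (n * k)) := by
        have h4 : n ^ 2 * (n * k) ≤ 64 * x ^ 4 * (n * k) := mul_le_mul_of_nonneg_right hnS (by positivity)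
        linarith only [h4, hH2]
      have h5 := le_of_mul_le_mul_left h3 (by positivity)
      linarith only [h5]
    unfold nB
    simp only [Nat.cast_one, div_one, one_mul, mul_one, Fin.prod_univ_four, Matrix.cons_val_zero,
      Matrix.cons_val_one, Matrix.cons_val]
    have ha0' : (0 : ℝ) ≤ a0 := Nat.cast_nonneg _
    have ha1' : (0 : ℝ) ≤ a1 := Nat.cast_nonneg _
    have ha2' : (0 : ℝ) ≤ a2 := Nat.cast_nonneg _
    have ha3' : (0 : ℝ) ≤ a3 := Nat.cast_nonneg _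
    apply BXA_core x y n k ((M : ℝ) * G) h P _ _ ((a0 : ℝ) * a1) (10 ^ 7) (10 ^ 5) hx hy hn' hk' hh' hP0.le hmg
      (by linarith) hH2' r10 (by positivity) (by positivity) (by positivity) _ (by norm_num) (by norm_num)
    · -- Pi
      have h1 : (2 * (a0 : ℝ) + 1) * (2 * a1 + 1) * (2 * a2 + 1) * (2 * a3 + 1) ≤
          (208 * (A + 1)) * (95 * A') * (386 * (B + 1)) * (3 * (X + 1)) := by
        have v0 : 2 * (a0 : ℝ) + 1 ≤ 208 * (A + 1) := by linarith only [u0, hA0]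
        have v1 : 2 * (a1 : ℝ) + 1 ≤ 95 * A' := by linarith only [u1, hA'1]
        have v2 : 2 * (a2 : ℝ) + 1 ≤ 386 * (B + 1) := by linarith only [u2, hB0]
        have v3 : 2 * (a3 : ℝ) + 1 ≤ 3 * (X + 1) := by linarith only [u3, hX0]
        gcongr
      have h2 : (208 * (A + 1)) * (95 * A') * (386 * (B + 1)) * (3 * (X + 1)) * W ^ 2 =
          22882080 * (A' * W ^ 2 + A * A' * W ^ 2 + A' * B * W ^ 2 + A' * X * W ^ 2 + A * A' * B * W ^ 2 +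
            A * A' * X * W ^ 2 + A' * B * X * W ^ 2 + A * A' * B * X * W ^ 2) := by ring
      have h3 : (2 * (a0 : ℝ) + 1) * (2 * a1 + 1) * (2 * a2 + 1) * (2 * a3 + 1) * W ^ 2 ≤
          (208 * (A + 1)) * (95 * A') * (386 * (B + 1)) * (3 * (X + 1)) * W ^ 2 :=
        mul_le_mul_of_nonneg_right h1 hW2.le
      rw [h2] at h3
      refine h3.trans ?_
      linarith only [m1, m2, m3, m4, m5, m6, m7, m8, hP2]
    · -- D
      have h1 : (a0 : ℝ) * a3 + (a1 + 1) * (a2 + 1) + (a1 + 1) * (a3 + 1) + (a2 + 1) * (a3 + 1) + a0 + a0 + a1 ≤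
          (104 * (A + 1)) * (X + 1) + (48 * A') * (193 * (B + 1)) + (48 * A') * (2 * (X + 1)) +
            (193 * (B + 1)) * (2 * (X + 1)) + 104 * (A + 1) + 104 * (A + 1) + 47 * A' := by
        have v0 : (a0 : ℝ) ≤ 104 * (A + 1) := by linarith only [u0, hA0]
        have v1 : (a1 : ℝ) + 1 ≤ 48 * A' := by linarith only [u1, hA'1]
        have v2 : (a2 : ℝ) + 1 ≤ 193 * (B + 1) := by linarith only [u2, hB0]
        have v3 : (a3 : ℝ) + 1 ≤ 2 * (X + 1) := by linarith only [u3, hX0]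
        have v3' : (a3 : ℝ) ≤ X + 1 := u3
        have v1' : (a1 : ℝ) ≤ 47 * A' := u1
        gcongr
      have h2 : ((104 * (A + 1)) * (X + 1) + (48 * A') * (193 * (B + 1)) + (48 * A') * (2 * (X + 1)) +
            (193 * (B + 1)) * (2 * (X + 1)) + 104 * (A + 1) + 104 * (A + 1) + 47 * A') * T =
          104 * (A * X * T) + 312 * (A * T) + 490 * (X * T) + 698 * T + 9264 * (A' * B * T) + 9407 * (A' * T) +
            96 * (A' * X * T) + 386 * (B * X * T) + 386 * (B * T) := by ring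
      have h3 := mul_le_mul_of_nonneg_right h1 hT0.le
      rw [h2] at h3
      refine h3.trans ?_
      linarith only [t1, t2, t3, t4, t5, t6, t7, t8, t9, hP2]
    · -- a0 a1 ≤ Pi
      have h1 : (a0 : ℝ) * a1 ≤ (2 * a0 + 1) * (2 * a1 + 1) := by
        have h7 := mul_nonneg ha0' ha1'
        linarith only [h7, ha0', ha1']
      have h2 : (2 * (a0 : ℝ) + 1) * (2 * a1 + 1) * 1 * 1 ≤
          (2 * (a0 : ℝ) + 1) * (2 * a1 + 1) * (2 * a2 + 1) * (2 * a3 + 1) := by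
        have h8 : (1 : ℝ) ≤ 2 * a2 + 1 := by linarith only [ha2']
        have h9 : (1 : ℝ) ≤ 2 * a3 + 1 := by linarith only [ha3']
        gcongr
      linarith only [h1, h2]

end Pool.Agent.T5
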