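import Pool.Agent.helper1.T5.BXA

set_option autoImplicit false

namespace Pool.Agent.T5

open Finset NumberField Pool.Agent.helper3.FT Pool.Agent.helper47.RA

theorem BXB : BXB_stmt := by
  refine ⟨32768 + 192000 * 10 ^ 7 + 64 * (32 * 10 ^ 5 + 1000 * 10 ^ 7), by norm_num, ?_⟩
  intro x y S N₁ K₁ M G H hB hreg
  obtain ⟨s0, s1, s2, s3, hM0, hG0⟩ := BXA_sides hB
  have hmg := BXA_sqrtMG hB
  obtain ⟨hx, hy, hS, hS1, hn, hk, hh, hn2, hk2, hkn, hm1, hm2, hg1, hg2, hH1, hH2⟩ := hB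
  obtain ⟨p1, p2, p3, p4, p5, p6, p7, p8, p9⟩ := BXA_SB hx hy hS
  have hx0 : 0 < x := by linarith
  have hy0 : 0 < y := by linarith
  have hn' : (1 : ℝ) ≤ N₁ := by exact_mod_cast hn
  have hk' : (1 : ℝ) ≤ K₁ := by exact_mod_cast hk
  have hh' : (1 : ℝ) ≤ H := by exact_mod_cast hh
  have hP0 : 0 < SB x y S := lt_of_lt_of_le (by positivity) p1
  obtain ⟨r1, r2, r3, r4, r5, r6, r7, r8, r9, r10⟩ :=
    BXA_mon hx hy hS hS1 hn' hk' hn2 hk2 hP0 p1 p3 p5 p6 p8 p9
  obtain ⟨z1, z2, z3, z4, z5, z6⟩ := BXA_size hx hy hS1 hn' hk' hn2 hk2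
  set n : ℝ := (N₁ : ℝ) with hndef
  set k : ℝ := (K₁ : ℝ) with hkdef
  set h : ℝ := (H : ℝ) with hhdef
  set P : ℝ := SB x y S with hPdef
  have hn0 : 0 < n := by linarith
  have hk0 : 0 < k := by linarith
  have hh0 : 0 < h := by linarith
  have hP2 : 0 < P ^ 2 := by positivity
  set A : ℝ := n * k * y ^ 4 / x ^ 6 with hA
  set A' : ℝ := n * k / x ^ 2 with hA'
  set B : ℝ := n ^ 2 / x ^ 2 with hBd
  set X : ℝ := n ^ 2 * x ^ 2 / y ^ 4 with hX
  set b : ℝ := n / k with hb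
  have hA0 : 0 < A := by positivity
  have hA'0 : 0 < A' := by positivity
  have hB0 : 0 < B := by positivity
  have hX0 : 0 < X := by positivity
  have hb0 : 0 < b := by positivity
  have hA'1 : A' ≤ 1 := by
    rw [hA', div_le_iff₀ (by positivity)]
    linarith only [hreg]
  have hone : ∀ i j : ℕ, 1 ≤ x ^ i * y ^ j := fun i j =>
    one_le_mul_of_one_le_of_one_le (one_le_pow₀ hx) (one_le_pow₀ hy)
  -- `n ≥ 32 k`
  have hnk32 : 32 * k ≤ n := by
    have h1 : 32 * x ^ 4 ≤ n ^ 3 * k := by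
      calc 32 * x ^ 4 = 32 * 1 * x ^ 4 := by ring
        _ ≤ 32 * h * x ^ 4 := by gcongr
        _ ≤ n ^ 3 * k := hH2
    have h2 : (n * k) ^ 2 ≤ (x ^ 2) ^ 2 := pow_le_pow_left₀ (by positivity) hreg 2
    have h3 : (n ^ 2 * k) * (32 * k) ≤ (n ^ 2 * k) * n := by
      calc (n ^ 2 * k) * (32 * k) = 32 * (n * k) ^ 2 := by ring
        _ ≤ 32 * (x ^ 2) ^ 2 := by gcongr
        _ = 32 * x ^ 4 := by ring
        _ ≤ n ^ 3 * k := h1
        _ = (n ^ 2 * k) * n := by ring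
    exact le_of_mul_le_mul_left h3 (by positivity)
  have hb1 : 32 ≤ b := by
    rw [hb, le_div_iff₀ hk0]
    exact hnk32
  have hBb : B ≤ b := by
    rw [hBd, hb, div_le_div_iff₀ (by positivity) hk0]
    calc n ^ 2 * k = n * (n * k) := by ring
      _ ≤ n * x ^ 2 := by gcongr
  have hnx : n ≤ x ^ 2 := by
    calc n = n * 1 := by ring
      _ ≤ n * k := by gcongr
      _ ≤ x ^ 2 := hreg
  have q1 : (x ^ 4 * y ^ 4) ^ 2 ≤ P ^ 2 := pow_le_pow_left₀ (by positivity) p1 2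
  have q2 : (x ^ 6) ^ 2 ≤ P ^ 2 := pow_le_pow_left₀ (by positivity) p2 2
  have q7 : (x ^ 7 * S ^ 2) ^ 2 ≤ P ^ 2 := pow_le_pow_left₀ (by positivity) p7 2
  set a0 : ℕ := ⌈104 * A⌉₊ with ha0
  set a1 : ℕ := ⌈46 * A'⌉₊ with ha1
  set a2 : ℕ := ⌈4 * n * a1 / k + 5 * B⌉₊ with ha2
  set a3 : ℕ := ⌈X⌉₊ with ha3
  have u0 : (a0 : ℝ) ≤ 104 * A + 1 := (Nat.ceil_lt_add_one (by positivity)).le
  have u1 : (a1 : ℝ) ≤ 47 := by
    have := (Nat.ceil_lt_add_one (a := 46 * A') (by positivity)).le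
    linarith only [this, hA'1]
  have u2 : (a2 : ℝ) ≤ 194 * b := by
    have h1 := (Nat.ceil_lt_add_one (a := 4 * n * a1 / k + 5 * B) (by positivity)).le
    have h2 : 4 * n * a1 / k ≤ 188 * b := by
      rw [div_le_iff₀ hk0]
      calc 4 * n * a1 ≤ 4 * n * 47 := by gcongr
        _ = 188 * b * k := by
            rw [hb]
            field_simp
            ring
    linarith only [h1, h2, hBb, hb1]
  have u3 : (a3 : ℝ) ≤ X + 1 := (Nat.ceil_lt_add_one (by positivity)).le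
  refine ⟨![a0, a1, a2, a3], ⟨?_, ?_, ?_, ?_⟩, ?_, ?_⟩
  · simp only [Matrix.cons_val_zero, Nat.cast_one, mul_one]
    exact s0.trans (Nat.le_ceil _)
  · simp only [Matrix.cons_val_one, Matrix.cons_val_zero, Nat.cast_one, mul_one, one_mul]
    exact s1.trans (Nat.le_ceil _)
  · simp only [Matrix.cons_val_one, Matrix.cons_val_zero, Matrix.cons_val, Nat.cast_one, mul_one]
    exact (add_le_add le_rfl s2).trans (Nat.le_ceil _)
  · simp only [Matrix.cons_val, Nat.cast_one, mul_one]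
    exact s3.trans (Nat.le_ceil _)
  · have hbig : ∀ t : ℝ, t ≤ 194 * (64 * (x * y) ^ 8) + 1 →
        t ≤ (32768 + 192000 * 10 ^ 7 + 64 * (32 * 10 ^ 5 + 1000 * 10 ^ 7)) * (x * y) ^ 8 := by
      intro t ht
      have h0 : 0 < (x * y) ^ 8 := by positivity
      linarith only [ht, z6, h0]
    intro i
    fin_cases i
    · exact hbig _ (by show (a0 : ℝ) ≤ _; linarith only [u0, z1, z6])
    · exact hbig _ (by show (a1 : ℝ) ≤ _; linarith only [u1, z6])
    · exact hbig _ (by show (a2 : ℝ) ≤ _; linarith only [u2, z5, z6])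
    · exact hbig _ (by show (a3 : ℝ) ≤ _; linarith only [u3, z4, z6])
  · set W : ℝ := x ^ 4 * y ^ 2 / n with hW
    have m1 : b * W ^ 2 ≤ 262144 * P ^ 2 := by
      have e1 : b * W ^ 2 = x ^ 8 * y ^ 4 / (n * k) := by
        rw [hb, hW]
        field_simp
      rw [e1, div_le_iff₀ (by positivity)]
      have h1 : 1 ≤ n * k := one_le_mul_of_one_le_of_one_le hn' hk'
      calc x ^ 8 * y ^ 4 = x ^ 8 * y ^ 4 * 1 * 1 := by ring
        _ ≤ x ^ 8 * y ^ 4 * (x ^ 0 * y ^ 4) * (n * k) := by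
            have := hone 0 4
            gcongr
        _ = (x ^ 4 * y ^ 4) ^ 2 * (n * k) := by ring
        _ ≤ P ^ 2 * (n * k) := by gcongr
        _ ≤ 262144 * P ^ 2 * (n * k) := by
            gcongr
            linarith only [hP2]
    have m2 : A * b * W ^ 2 ≤ 262144 * P ^ 2 := by
      have e1 : A * b * W ^ 2 = x ^ 2 * y ^ 8 := by
        rw [hb, hA, hW]
        field_simp
      rw [e1]
      calc x ^ 2 * y ^ 8 = x ^ 2 * y ^ 8 * 1 := by ring
        _ ≤ x ^ 2 * y ^ 8 * (x ^ 6 * y ^ 0) := by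
            have := hone 6 0
            gcongr
        _ = (x ^ 4 * y ^ 4) ^ 2 := by ring
        _ ≤ 262144 * P ^ 2 := by linarith only [q1, hP2]
    have m3 : b * X * W ^ 2 ≤ 262144 * P ^ 2 := by
      have e1 : b * X * W ^ 2 = n * x ^ 10 / k := by
        rw [hb, hX, hW]
        field_simp
      rw [e1, div_le_iff₀ hk0]
      calc n * x ^ 10 ≤ x ^ 2 * x ^ 10 := by gcongr
        _ = (x ^ 6) ^ 2 * 1 := by ring
        _ ≤ P ^ 2 * k := by gcongr
        _ ≤ 262144 * P ^ 2 * k := by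
            gcongr
            linarith only [hP2]
    have m4 : A * b * X * W ^ 2 ≤ 262144 * P ^ 2 := by
      have e1 : A * b * X * W ^ 2 = n ^ 2 * x ^ 4 * y ^ 4 := by
        rw [hb, hA, hX, hW]
        field_simp
      rw [e1]
      calc n ^ 2 * x ^ 4 * y ^ 4 ≤ (x ^ 2) ^ 2 * x ^ 4 * y ^ 4 := by gcongr
        _ = x ^ 8 * y ^ 4 * 1 := by ring
        _ ≤ x ^ 8 * y ^ 4 * (x ^ 0 * y ^ 4) := by
            have := hone 0 4
            gcongr
        _ = (x ^ 4 * y ^ 4) ^ 2 := by ring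
        _ ≤ 262144 * P ^ 2 := by linarith only [q1, hP2]
    set T : ℝ := x ^ 4 * y ^ 4 * (n * k) with hT
    have t1 : A * X * T ≤ 262144 * P ^ 2 := by
      have e1 : A * X * T = n ^ 4 * k ^ 2 * y ^ 4 := by
        rw [hA, hX, hT]
        field_simp
      rw [e1]
      exact r1
    have t2 : b * T ≤ 262144 * P ^ 2 := by
      have e1 : b * T = n ^ 2 * x ^ 4 * y ^ 4 := by
        rw [hb, hT]
        field_simp
      rw [e1]
      calc n ^ 2 * x ^ 4 * y ^ 4 ≤ (x ^ 2) ^ 2 * x ^ 4 * y ^ 4 := by gcongr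
        _ = x ^ 8 * y ^ 4 * 1 := by ring
        _ ≤ x ^ 8 * y ^ 4 * (x ^ 0 * y ^ 4) := by
            have := hone 0 4
            gcongr
        _ = (x ^ 4 * y ^ 4) ^ 2 := by ring
        _ ≤ 262144 * P ^ 2 := by linarith only [q1, hP2]
    have t3 : b * X * T ≤ 262144 * P ^ 2 := by
      have e1 : b * X * T = n ^ 4 * x ^ 6 := by
        rw [hb, hX, hT]
        field_simp
      rw [e1]
      calc n ^ 4 * x ^ 6 ≤ (8 * x ^ 2 * S) ^ 4 * x ^ 6 := by gcongr
        _ = 4096 * (x ^ 7 * S ^ 2) ^ 2 := by ring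
        _ ≤ 262144 * P ^ 2 := by linarith only [q7, hP2]
    have t5 : A * T ≤ 262144 * P ^ 2 := by
      have e1 : A * T = n ^ 2 * k ^ 2 * y ^ 8 / x ^ 2 := by
        rw [hA, hT]
        field_simp
      rw [e1]
      exact r4
    have t8 : X * T ≤ 262144 * P ^ 2 := by
      have e1 : X * T = n ^ 3 * k * x ^ 6 := by
        rw [hX, hT]
        field_simp
      rw [e1]
      exact r7
    have t9 : T ≤ 262144 * P ^ 2 := by
      have e1 : T = n * k * x ^ 4 * y ^ 4 := by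
        rw [hT]
        ring
      rw [e1]
      exact r8
    have hT0 : 0 < T := by positivity
    have hW2 : 0 < W ^ 2 := by positivity
    have hH2' : h ≤ 2 * (n * k) := by
      have hnS : n ^ 2 ≤ 64 * x ^ 4 := by
        have h1 : n ≤ 8 * x ^ 2 := by
          have h0 : 8 * x ^ 2 * S ≤ 8 * x ^ 2 * 1 := by gcongr
          linarith only [h0, hn2]
        have h2 := pow_le_pow_left₀ hn0.le h1 2
        linarith only [h2]
      have h3 : x ^ 4 * (32 * h) ≤ x ^ 4 * (64 * (n * k)) := by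
        have h4 : n ^ 2 * (n * k) ≤ 64 * x ^ 4 * (n * k) := mul_le_mul_of_nonneg_right hnS (by positivity)
        linarith only [h4, hH2]
      have h5 := le_of_mul_le_mul_left h3 (by positivity)
      linarith only [h5]
    unfold nB
    simp only [Nat.cast_one, div_one, one_mul, mul_one, Fin.prod_univ_four, Matrix.cons_val_zero,
      Matrix.cons_val_one, Matrix.cons_val]
    have ha0' : (0 : ℝ) ≤ a0 := Nat.cast_nonneg _
    have ha1' : (0 : ℝ) ≤ a1 := Nat.cast_nonneg _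
    have ha2' : (0 : ℝ) ≤ a2 := Nat.cast_nonneg _
    have ha3' : (0 : ℝ) ≤ a3 := Nat.cast_nonneg _
    apply BXA_core x y n k ((M : ℝ) * G) h P _ _ ((a0 : ℝ) * a1) (10 ^ 7) (10 ^ 5) hx hy hn' hk' hh' hP0.le hmg
      (by linarith only [hH1]) hH2' r10 (by positivity) (by positivity) (by positivity) _ (by norm_num) (by norm_num)
    · -- Pi
      have h1 : (2 * (a0 : ℝ) + 1) * (2 * a1 + 1) * (2 * a2 + 1) * (2 * a3 + 1) ≤
          (208 * (A + 1)) * 95 * (389 * b) * (3 * (X + 1)) := by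
        have v0 : 2 * (a0 : ℝ) + 1 ≤ 208 * (A + 1) := by linarith only [u0, hA0]
        have v1 : 2 * (a1 : ℝ) + 1 ≤ 95 := by linarith only [u1]
        have v2 : 2 * (a2 : ℝ) + 1 ≤ 389 * b := by linarith only [u2, hb1]
        have v3 : 2 * (a3 : ℝ) + 1 ≤ 3 * (X + 1) := by linarith only [u3, hX0]
        gcongr
      have h2 : (208 * (A + 1)) * 95 * (389 * b) * (3 * (X + 1)) * W ^ 2 =
          23059920 * (b * W ^ 2 + A * b * W ^ 2 + b * X * W ^ 2 + A * b * X * W ^ 2) := by ring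
      have h3 : (2 * (a0 : ℝ) + 1) * (2 * a1 + 1) * (2 * a2 + 1) * (2 * a3 + 1) * W ^ 2 ≤
          (208 * (A + 1)) * 95 * (389 * b) * (3 * (X + 1)) * W ^ 2 :=
        mul_le_mul_of_nonneg_right h1 hW2.le
      rw [h2] at h3
      refine h3.trans ?_
      linarith only [m1, m2, m3, m4, hP2]
    · -- D
      have h1 : (a0 : ℝ) * a3 + (a1 + 1) * (a2 + 1) + (a1 + 1) * (a3 + 1) + (a2 + 1) * (a3 + 1) + a0 + a0 + a1 ≤
          (104 * (A + 1)) * (X + 1) + 48 * (195 * b) + 48 * (2 * (X + 1)) +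
            (195 * b) * (2 * (X + 1)) + 104 * (A + 1) + 104 * (A + 1) + 47 := by
        have v0 : (a0 : ℝ) ≤ 104 * (A + 1) := by linarith only [u0, hA0]
        have v1 : (a1 : ℝ) + 1 ≤ 48 := by linarith only [u1]
        have v2 : (a2 : ℝ) + 1 ≤ 195 * b := by linarith only [u2, hb1]
        have v3 : (a3 : ℝ) + 1 ≤ 2 * (X + 1) := by linarith only [u3, hX0]
        have v3' : (a3 : ℝ) ≤ X + 1 := u3
        have v1' : (a1 : ℝ) ≤ 47 := u1
        gcongr
      have h2 : ((104 * (A + 1)) * (X + 1) + 48 * (195 * b) + 48 * (2 * (X + 1)) +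
            (195 * b) * (2 * (X + 1)) + 104 * (A + 1) + 104 * (A + 1) + 47) * T =
          104 * (A * X * T) + 312 * (A * T) + 200 * (X * T) + 455 * T + 9750 * (b * T) +
            390 * (b * X * T) := by ring
      have h3 := mul_le_mul_of_nonneg_right h1 hT0.le
      rw [h2] at h3
      refine h3.trans ?_
      linarith only [t1, t2, t3, t5, t8, t9, hP2]
    · -- a0 a1 ≤ Pi
      have h1 : (a0 : ℝ) * a1 ≤ (2 * a0 + 1) * (2 * a1 + 1) := by
        have h7 := mul_nonneg ha0' ha1'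
        linarith only [h7, ha0', ha1']
      have h2 : (2 * (a0 : ℝ) + 1) * (2 * a1 + 1) * 1 * 1 ≤
          (2 * (a0 : ℝ) + 1) * (2 * a1 + 1) * (2 * a2 + 1) * (2 * a3 + 1) := by
        have h8 : (1 : ℝ) ≤ 2 * a2 + 1 := by linarith only [ha2']
        have h9 : (1 : ℝ) ≤ 2 * a3 + 1 := by linarith only [ha3']
        gcongr
      linarith only [h1, h2]

end Pool.Agent.T5
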