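import Pool.Agent.helper8.T5.SpecU

set_option autoImplicit false

namespace Pool.Agent.T5

open Finset NumberField Pool.Agent.helper3.FT Pool.Agent.helper47.RA

theorem UFT : UFT_stmt := by
  classical
  intro ε hε
  obtain ⟨C1, hC1, hS⟩ := count_SS (4 * ε) (by positivity)
  obtain ⟨C2, hC2, hZ⟩ := count_ZZ (4 * ε) (by positivity)
  have h17 : (0 : ℝ) < 17 ^ (4 + 4 * ε) := Real.rpow_pos_of_pos (by norm_num) _
  have h2p : (1 : ℝ) ≤ 2 ^ (1 + ε) := Real.one_le_rpow (by norm_num) (by linarith)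
  have hC0 : 0 ≤ (C1 + 4 * C2) * (17 : ℝ) ^ (4 + 4 * ε) := by positivity
  refine ⟨(2 + (C1 + 4 * C2) * 17 ^ (4 + 4 * ε)) * 2 ^ (1 + ε), by nlinarith, ?_⟩
  intro N' hN' s Φ hs
  set N : ℕ := ⌊N'⌋₊ + 1 with hNdef
  have hN : 1 ≤ N := by omega
  have hNlt : N' < N := by
    rw [hNdef]
    push_cast
    exact Nat.lt_floor_add_one N'
  have hNle : (N : ℝ) ≤ 2 * N' := by
    rw [hNdef]
    push_cast
    have := Nat.floor_le (show 0 ≤ N' by linarith)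
    linarith
  have hfund : ∀ D ∈ s, IsFund D := by
    intro D hD
    have h := (Φ ⟨D, hD⟩).Q.hD
    rw [(Φ ⟨D, hD⟩).hD] at h
    exact h
  have habs : ∀ D ∈ s, |D| < N := by
    intro D hD
    obtain ⟨h1, h2⟩ := hs D hD
    have h3 : (D : ℝ) < 0 := by linarith
    have h4 : ((|D| : ℤ) : ℝ) < N := by
      rw [Int.cast_abs, abs_of_neg h3]
      linarith
    exact_mod_cast h4
  obtain ⟨T, hT1, hT2, hT3⟩ := exists_T N hN
  obtain ⟨fS, bS⟩ := hS T hT1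
  obtain ⟨fZ, bZ⟩ := hZ T hT1
  obtain ⟨f1, s1⟩ := sum_SD T fS s hfund
  obtain ⟨f2, s2⟩ := sum_ZD T fZ s hfund
  have hNR : (1 : ℝ) ≤ N := by exact_mod_cast hN
  have hbound : ∀ D : s, Nat.card {x : ClassGroup (𝓞 (Φ D).K) // x ^ 5 = 1} ≤
      1 + (SD D.1 T).ncard + 2 * (ZD D.1 T).ncard := by
    intro D
    have hQD : (Φ D).Q.D = D.1 := (Φ D).hD
    have h1 : 16 ^ 4 * |(Φ D).Q.D| ≤ (T : ℤ) ^ 4 := by
      rw [hQD]
      have := habs D.1 D.2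
      omega
    have h2 := torsion_le (Φ D).Q T h1 (by rw [hQD]; exact f1 D.1 D.2) (by rw [hQD]; exact f2 D.1 D.2)
    rw [hQD] at h2
    exact h2
  have hcard : s.card ≤ 2 * N := by
    have hsub : s ⊆ Finset.Ioo (-(N : ℤ)) N := by
      intro D hD
      have := habs D hD
      rw [abs_lt] at this
      exact Finset.mem_Ioo.2 this
    have := Finset.card_le_card hsub
    rw [Int.card_Ioo] at this
    omega
  have hsum : ∑ D : s, Nat.card {x : ClassGroup (𝓞 (Φ D).K) // x ^ 5 = 1} ≤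
      2 * N + (SS T).ncard + 4 * (ZZ T).ncard := by
    calc ∑ D : s, Nat.card {x : ClassGroup (𝓞 (Φ D).K) // x ^ 5 = 1}
        ≤ ∑ D : s, (1 + (SD D.1 T).ncard + 2 * (ZD D.1 T).ncard) :=
          Finset.sum_le_sum fun D _ => hbound D
      _ = ∑ D ∈ s, (1 + (SD D T).ncard + 2 * (ZD D T).ncard) :=
          Finset.sum_coe_sort s (fun D : ℤ => 1 + (SD D T).ncard + 2 * (ZD D T).ncard)
      _ = s.card + ∑ D ∈ s, (SD D T).ncard + 2 * ∑ D ∈ s, (ZD D T).ncard := by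
          rw [Finset.sum_add_distrib, Finset.sum_add_distrib, Finset.mul_sum]
          simp
      _ ≤ _ := by omega
  have hT4 : (T : ℝ) ^ (4 + 4 * ε) ≤ 17 ^ (4 + 4 * ε) * (N : ℝ) ^ (1 + ε) := by
    calc (T : ℝ) ^ (4 + 4 * ε) ≤ (17 * (N : ℝ) ^ (1 / 4 : ℝ)) ^ (4 + 4 * ε) :=
          Real.rpow_le_rpow (by positivity) hT3 (by positivity)
      _ = 17 ^ (4 + 4 * ε) * (N : ℝ) ^ (1 + ε) := by
          rw [Real.mul_rpow (by norm_num) (by positivity), ← Real.rpow_mul (by positivity)]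
          congr 2
          ring
  have hN1 : (N : ℝ) ≤ (N : ℝ) ^ (1 + ε) := by
    calc (N : ℝ) = (N : ℝ) ^ (1 : ℝ) := (Real.rpow_one _).symm
      _ ≤ _ := Real.rpow_le_rpow_of_exponent_le hNR (by linarith)
  have hsumR : ∑ D : s, (Nat.card {x : ClassGroup (𝓞 (Φ D).K) // x ^ 5 = 1} : ℝ) ≤
      2 * N + (SS T).ncard + 4 * (ZZ T).ncard := by
    exact_mod_cast hsum
  have hNN : (N : ℝ) ^ (1 + ε) ≤ 2 ^ (1 + ε) * N' ^ (1 + ε) := by
    rw [← Real.mul_rpow (by norm_num) (by linarith)]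
    exact Real.rpow_le_rpow (by positivity) hNle (by linarith)
  calc ∑ D : s, (Nat.card {x : ClassGroup (𝓞 (Φ D).K) // x ^ 5 = 1} : ℝ)
      ≤ 2 * N + (SS T).ncard + 4 * (ZZ T).ncard := hsumR
    _ ≤ 2 * N + C1 * (T : ℝ) ^ (4 + 4 * ε) + 4 * (C2 * (T : ℝ) ^ (4 + 4 * ε)) := by linarith
    _ = 2 * N + (C1 + 4 * C2) * (T : ℝ) ^ (4 + 4 * ε) := by ring
    _ ≤ 2 * (N : ℝ) ^ (1 + ε) + (C1 + 4 * C2) * (17 ^ (4 + 4 * ε) * (N : ℝ) ^ (1 + ε)) := by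
        refine add_le_add (by linarith) (mul_le_mul_of_nonneg_left hT4 (by linarith))
    _ = (2 + (C1 + 4 * C2) * 17 ^ (4 + 4 * ε)) * (N : ℝ) ^ (1 + ε) := by ring
    _ ≤ (2 + (C1 + 4 * C2) * 17 ^ (4 + 4 * ε)) * (2 ^ (1 + ε) * N' ^ (1 + ε)) :=
        mul_le_mul_of_nonneg_left hNN (by linarith)
    _ = _ := by ring

end Pool.Agent.T5
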