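import Pool.Agent.helper8.T5.SpecU

set_option autoImplicit false

namespace Pool.Agent.T5

open Finset NumberField Pool.Agent.helper3.FT Pool.Agent.helper47.RA

theorem USM_card2 (F : Finset (ℕ × ℕ)) (X : ℝ) (hF : ∀ p ∈ F, 1 ≤ p.1 ∧ 1 ≤ p.2 ∧ (p.1 : ℝ) * p.2 ≤ X)
    (hX : 0 ≤ X) (z : ℕ) (hz : 1 ≤ z) : ((F.filter fun p => p.2 = z).card : ℝ) ≤ X / z := by
  have hz0 : (0 : ℝ) < z := by exact_mod_cast hz
  have h1 : (F.filter fun p => p.2 = z).card ≤ (Icc 1 ⌊X / z⌋₊).card := by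
    apply Finset.card_le_card_of_injOn (fun p => p.1)
    · intro p hp
      have hp2 := Finset.mem_filter.1 (Finset.mem_coe.1 hp)
      obtain ⟨a, b, c⟩ := hF p hp2.1
      simp only [Finset.coe_Icc, Set.mem_Icc]
      refine ⟨a, Nat.le_floor ?_⟩
      rw [le_div_iff₀ hz0]
      rw [hp2.2] at c
      exact c
    · intro p hp q hq hpq
      have hp2 := (Finset.mem_filter.1 (Finset.mem_coe.1 hp)).2
      have hq2 := (Finset.mem_filter.1 (Finset.mem_coe.1 hq)).2
      exact Prod.ext hpq (hp2.trans hq2.symm)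
  rw [Nat.card_Icc] at h1
  have h2 : ((F.filter fun p => p.2 = z).card : ℝ) ≤ (⌊X / z⌋₊ : ℝ) := by
    exact_mod_cast (by omega : (F.filter fun p => p.2 = z).card ≤ ⌊X / z⌋₊)
  exact h2.trans (Nat.floor_le (by positivity))

theorem USM_card1 (F : Finset (ℕ × ℕ)) (X : ℝ) (hF : ∀ p ∈ F, 1 ≤ p.1 ∧ 1 ≤ p.2 ∧ (p.1 : ℝ) * p.2 ≤ X)
    (hX : 0 ≤ X) (r : ℕ) (hr : 1 ≤ r) : ((F.filter fun p => p.1 = r).card : ℝ) ≤ X / r := by
  have hr0 : (0 : ℝ) < r := by exact_mod_cast hr
  have h1 : (F.filter fun p => p.1 = r).card ≤ (Icc 1 ⌊X / r⌋₊).card := by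
    apply Finset.card_le_card_of_injOn (fun p => p.2)
    · intro p hp
      have hp2 := Finset.mem_filter.1 (Finset.mem_coe.1 hp)
      obtain ⟨a, b, c⟩ := hF p hp2.1
      simp only [Finset.coe_Icc, Set.mem_Icc]
      refine ⟨b, Nat.le_floor ?_⟩
      rw [le_div_iff₀ hr0]
      rw [hp2.2] at c
      linarith
    · intro p hp q hq hpq
      have hp2 := (Finset.mem_filter.1 (Finset.mem_coe.1 hp)).2
      have hq2 := (Finset.mem_filter.1 (Finset.mem_coe.1 hq)).2
      exact Prod.ext (hp2.trans hq2.symm) hpq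
  rw [Nat.card_Icc] at h1
  have h2 : ((F.filter fun p => p.1 = r).card : ℝ) ≤ (⌊X / r⌋₊ : ℝ) := by
    exact_mod_cast (by omega : (F.filter fun p => p.1 = r).card ≤ ⌊X / r⌋₊)
  exact h2.trans (Nat.floor_le (by positivity))

theorem USM_inv (M : ℕ) : ∑ r ∈ Icc 1 M, 1 / (r : ℝ) ^ 2 ≤ 2 := by
  have h : ∀ M : ℕ, 1 ≤ M → ∑ r ∈ Icc 1 M, 1 / (r : ℝ) ^ 2 ≤ 2 - 1 / (M : ℝ) := by
    intro M hM
    induction M, hM using Nat.le_induction with
    | base => norm_num
    | succ n hn ih =>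
      rw [Finset.sum_Icc_succ_top (by omega)]
      have hn0 : (0 : ℝ) < n := by exact_mod_cast hn
      have h1 : 1 / (((n + 1 : ℕ) : ℝ)) ^ 2 ≤ 1 / (n : ℝ) - 1 / ((n + 1 : ℕ) : ℝ) := by
        push_cast
        rw [div_sub_div _ _ hn0.ne' (by positivity), div_le_div_iff₀ (by positivity) (by positivity)]
        nlinarith
      linarith
  rcases Nat.eq_zero_or_pos M with h0 | h0
  · subst h0
    simp
  · have h1 := h M h0
    have h2 : (0 : ℝ) ≤ 1 / (M : ℝ) := by positivity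
    linarith

theorem USM_fib2 (F : Finset (ℕ × ℕ)) (m : ℕ) (hm : ∀ p ∈ F, p.2 ∈ Icc 1 m) (f : ℕ × ℕ → ℝ) (g : ℝ)
    (hg : ∀ z ∈ Icc 1 m, ∑ p ∈ F.filter (fun p => p.2 = z), f p ≤ g) : ∑ p ∈ F, f p ≤ m * g := by
  rw [← Finset.sum_fiberwise_of_maps_to hm]
  refine (Finset.sum_le_sum hg).trans (le_of_eq ?_)
  rw [Finset.sum_const, Nat.card_Icc, nsmul_eq_mul]
  congr 2

theorem USM_sqrt_id (r z : ℕ) : ((z : ℝ)) ^ 2 * √z * √r = (z : ℝ) ^ 2 * √((r : ℝ) * z) := by
  rw [Real.sqrt_mul (Nat.cast_nonneg r)]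
  ring

theorem USM : USM_stmt := by
  refine ⟨?_, ?_, ?_⟩
  · intro Y hY F hF
    have hY0 : 0 ≤ Y := by linarith
    have hm : ∀ p ∈ F, p.1 ∈ Icc 1 ⌊Y⌋₊ := by
      intro p hp
      obtain ⟨a, b, c⟩ := hF p hp
      rw [Finset.mem_Icc]
      refine ⟨a, Nat.le_floor ?_⟩
      have h1 : (1 : ℝ) ≤ p.2 := by exact_mod_cast b
      have h2 : (0 : ℝ) ≤ p.1 := Nat.cast_nonneg _
      nlinarith
    constructor
    · rw [← Finset.sum_fiberwise_of_maps_to hm]
      calc ∑ r ∈ Icc 1 ⌊Y⌋₊, ∑ p ∈ F.filter (fun p => p.1 = r), 1 / (p.1 : ℝ)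
          ≤ ∑ r ∈ Icc 1 ⌊Y⌋₊, Y * (1 / (r : ℝ) ^ 2) := by
            apply Finset.sum_le_sum
            intro r hr
            have hr1 : 1 ≤ r := (Finset.mem_Icc.1 hr).1
            have hr0 : (0 : ℝ) < r := by exact_mod_cast hr1
            have h1 : ∑ p ∈ F.filter (fun p => p.1 = r), 1 / (p.1 : ℝ) =
                ∑ p ∈ F.filter (fun p => p.1 = r), 1 / (r : ℝ) := by
              apply Finset.sum_congr rfl
              intro p hp
              rw [(Finset.mem_filter.1 hp).2]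
            rw [h1, Finset.sum_const, nsmul_eq_mul]
            have h2 := USM_card1 F Y hF hY0 r hr1
            calc ((F.filter fun p => p.1 = r).card : ℝ) * (1 / (r : ℝ)) ≤ (Y / r) * (1 / (r : ℝ)) :=
                  mul_le_mul_of_nonneg_right h2 (by positivity)
              _ = Y * (1 / (r : ℝ) ^ 2) := by
                  field_simp
        _ = Y * ∑ r ∈ Icc 1 ⌊Y⌋₊, 1 / (r : ℝ) ^ 2 := by rw [Finset.mul_sum]
        _ ≤ Y * 2 := mul_le_mul_of_nonneg_left (USM_inv _) hY0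
        _ = 2 * Y := by ring
    · rw [← Finset.sum_fiberwise_of_maps_to hm]
      calc ∑ r ∈ Icc 1 ⌊Y⌋₊, ∑ p ∈ F.filter (fun p => p.1 = r), (p.2 : ℝ) ^ 2 * √p.2 * √p.1
          ≤ ∑ r ∈ Icc 1 ⌊Y⌋₊, (Y ^ 3 * √Y) * (1 / (r : ℝ) ^ 2) := by
            apply Finset.sum_le_sum
            intro r hr
            have hr1 : 1 ≤ r := (Finset.mem_Icc.1 hr).1
            have hr0 : (0 : ℝ) < r := by exact_mod_cast hr1
            have h1 : ∑ p ∈ F.filter (fun p => p.1 = r), (p.2 : ℝ) ^ 2 * √p.2 * √p.1 ≤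
                ∑ p ∈ F.filter (fun p => p.1 = r), (Y / r) ^ 2 * √Y := by
              apply Finset.sum_le_sum
              intro p hp
              have hp2 := Finset.mem_filter.1 hp
              obtain ⟨a, b, c⟩ := hF p hp2.1
              rw [USM_sqrt_id]
              have h3 : (p.2 : ℝ) ≤ Y / r := by
                rw [le_div_iff₀ hr0, ← hp2.2]
                linarith
              exact mul_le_mul (pow_le_pow_left₀ (Nat.cast_nonneg _) h3 2) (Real.sqrt_le_sqrt c)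
                (Real.sqrt_nonneg _) (by positivity)
            refine h1.trans ?_
            rw [Finset.sum_const, nsmul_eq_mul]
            have h2 := USM_card1 F Y hF hY0 r hr1
            calc ((F.filter fun p => p.1 = r).card : ℝ) * ((Y / r) ^ 2 * √Y)
                ≤ (Y / r) * ((Y / r) ^ 2 * √Y) := mul_le_mul_of_nonneg_right h2 (by positivity)
              _ = (Y ^ 3 * √Y) * (1 / (r : ℝ) ^ 2) * (1 / r) := by
                  field_simp
              _ ≤ (Y ^ 3 * √Y) * (1 / (r : ℝ) ^ 2) * 1 := by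
                  apply mul_le_mul_of_nonneg_left _ (by positivity)
                  rw [div_le_one hr0]
                  exact_mod_cast hr1
              _ = _ := mul_one _
        _ = (Y ^ 3 * √Y) * ∑ r ∈ Icc 1 ⌊Y⌋₊, 1 / (r : ℝ) ^ 2 := by rw [Finset.mul_sum]
        _ ≤ (Y ^ 3 * √Y) * 2 := mul_le_mul_of_nonneg_left (USM_inv _) (by positivity)
        _ = 2 * (Y ^ 3 * √Y) := by ring
  · intro Y B hY hB F hF
    have hY0 : 0 < Y := by linarith
    have hF' : ∀ p ∈ F, 1 ≤ p.1 ∧ 1 ≤ p.2 ∧ (p.1 : ℝ) * p.2 ≤ Y := fun p hp =>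
      ⟨(hF p hp).1, (hF p hp).2.1, (hF p hp).2.2.1⟩
    have hsB : 0 ≤ √B := Real.sqrt_nonneg _
    have hm : ∀ p ∈ F, p.2 ∈ Icc 1 ⌊√B⌋₊ := by
      intro p hp
      obtain ⟨a, b, c, d, e⟩ := hF p hp
      rw [Finset.mem_Icc]
      exact ⟨b, Nat.le_floor (Real.le_sqrt_of_sq_le e)⟩
    have hfl : (⌊√B⌋₊ : ℝ) ≤ √B := Nat.floor_le hsB
    constructor
    · have h := USM_fib2 F ⌊√B⌋₊ hm (fun p => 1 / (p.1 : ℝ)) 2 (by
        intro z hz
        have hz1 : 1 ≤ z := (Finset.mem_Icc.1 hz).1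
        have hz0 : (0 : ℝ) < z := by exact_mod_cast hz1
        have h1 : ∑ p ∈ F.filter (fun p => p.2 = z), 1 / (p.1 : ℝ) ≤
            ∑ p ∈ F.filter (fun p => p.2 = z), 2 * z / Y := by
          apply Finset.sum_le_sum
          intro p hp
          have hp2 := Finset.mem_filter.1 hp
          obtain ⟨a, b, c, d, e⟩ := hF p hp2.1
          have ha : (0 : ℝ) < p.1 := by exact_mod_cast a
          rw [div_le_div_iff₀ ha hY0]
          rw [hp2.2] at d
          linarith
        refine h1.trans ?_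
        rw [Finset.sum_const, nsmul_eq_mul]
        have h2 := USM_card2 F Y hF' hY0.le z hz1
        calc ((F.filter fun p => p.2 = z).card : ℝ) * (2 * z / Y) ≤ (Y / z) * (2 * z / Y) :=
              mul_le_mul_of_nonneg_right h2 (by positivity)
          _ = 2 := by
              field_simp)
      linarith
    · have h := USM_fib2 F ⌊√B⌋₊ hm (fun p => (p.2 : ℝ) ^ 2 * √p.2 * √p.1) (√B * (Y * √Y)) (by
        intro z hz
        have hz1 : 1 ≤ z := (Finset.mem_Icc.1 hz).1
        have hz0 : (0 : ℝ) < z := by exact_mod_cast hz1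
        have hzB : (z : ℝ) ≤ √B := by
          have h3 : (z : ℝ) ≤ (⌊√B⌋₊ : ℝ) := by exact_mod_cast (Finset.mem_Icc.1 hz).2
          linarith
        have h1 : ∑ p ∈ F.filter (fun p => p.2 = z), (p.2 : ℝ) ^ 2 * √p.2 * √p.1 ≤
            ∑ p ∈ F.filter (fun p => p.2 = z), (z : ℝ) ^ 2 * √Y := by
          apply Finset.sum_le_sum
          intro p hp
          have hp2 := Finset.mem_filter.1 hp
          obtain ⟨a, b, c, d, e⟩ := hF p hp2.1
          rw [USM_sqrt_id, hp2.2]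
          rw [hp2.2] at c
          exact mul_le_mul_of_nonneg_left (Real.sqrt_le_sqrt c) (by positivity)
        refine h1.trans ?_
        rw [Finset.sum_const, nsmul_eq_mul]
        have h2 := USM_card2 F Y hF' hY0.le z hz1
        calc ((F.filter fun p => p.2 = z).card : ℝ) * ((z : ℝ) ^ 2 * √Y) ≤ (Y / z) * ((z : ℝ) ^ 2 * √Y) :=
              mul_le_mul_of_nonneg_right h2 (by positivity)
          _ = z * (Y * √Y) := by
              field_simp
          _ ≤ √B * (Y * √Y) := mul_le_mul_of_nonneg_right hzB (by positivity))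
      have h4 : (⌊√B⌋₊ : ℝ) * (√B * (Y * √Y)) ≤ √B * (√B * (Y * √Y)) :=
        mul_le_mul_of_nonneg_right hfl (by positivity)
      have h5 : √B * (√B * (Y * √Y)) = B * (Y * √Y) := by
        rw [← mul_assoc, Real.mul_self_sqrt (by linarith)]
      linarith
  · intro Y B hY hB F hF
    have hY0 : 0 < Y := by linarith
    have hB0 : 0 < B := by linarith
    have hF' : ∀ p ∈ F, 1 ≤ p.1 ∧ 1 ≤ p.2 ∧ (p.1 : ℝ) * p.2 ≤ B := fun p hp =>
      ⟨(hF p hp).1, (hF p hp).2.1, (hF p hp).2.2.1⟩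
    have hsY : 0 ≤ √Y := Real.sqrt_nonneg _
    have hm : ∀ p ∈ F, p.2 ∈ Icc 1 ⌊√Y⌋₊ := by
      intro p hp
      obtain ⟨a, b, c, e⟩ := hF p hp
      rw [Finset.mem_Icc]
      exact ⟨b, Nat.le_floor (Real.le_sqrt_of_sq_le e)⟩
    have hfl : (⌊√Y⌋₊ : ℝ) ≤ √Y := Nat.floor_le hsY
    have hlogB : 0 ≤ Real.log B := Real.log_nonneg hB
    constructor
    · have h := USM_fib2 F ⌊√Y⌋₊ hm (fun p => 1 / (p.1 : ℝ)) (1 + Real.log B) (by
        intro z hz
        have h1 : ∑ p ∈ F.filter (fun p => p.2 = z), 1 / (p.1 : ℝ) ≤ ∑ r ∈ Icc 1 ⌊B⌋₊, 1 / (r : ℝ) := by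
          have h2 : ∑ p ∈ F.filter (fun p => p.2 = z), 1 / (p.1 : ℝ) =
              ∑ r ∈ (Finset.image (fun p : ℕ × ℕ => p.1) (F.filter (fun p => p.2 = z)) : Finset ℕ), 1 / (r : ℝ) := by
            rw [Finset.sum_image]
            intro p hp q hq hpq
            have hp2 := (Finset.mem_filter.1 hp).2
            have hq2 := (Finset.mem_filter.1 hq).2
            exact Prod.ext hpq (hp2.trans hq2.symm)
          rw [h2]
          apply Finset.sum_le_sum_of_subset_of_nonneg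
          · intro r hr
            obtain ⟨p, hp, rfl⟩ := Finset.mem_image.1 hr
            have hp2 := Finset.mem_filter.1 hp
            obtain ⟨a, b, c, e⟩ := hF p hp2.1
            rw [Finset.mem_Icc]
            refine ⟨a, Nat.le_floor ?_⟩
            have h3 : (1 : ℝ) ≤ p.2 := by exact_mod_cast b
            have h4 : (0 : ℝ) ≤ p.1 := Nat.cast_nonneg _
            nlinarith
          · intro r _ _
            positivity
        refine h1.trans ?_
        have h5 : ∑ r ∈ Icc 1 ⌊B⌋₊, 1 / (r : ℝ) = ((harmonic ⌊B⌋₊ : ℚ) : ℝ) := by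
          rw [harmonic_eq_sum_Icc]
          push_cast
          apply Finset.sum_congr rfl
          intro r _
          rw [one_div]
        rw [h5]
        refine (harmonic_le_one_add_log _).trans ?_
        have h6 : Real.log (⌊B⌋₊ : ℝ) ≤ Real.log B := by
          apply Real.log_le_log
          · exact_mod_cast Nat.floor_pos.2 hB
          · exact Nat.floor_le hB0.le
        linarith)
      have h4 : (⌊√Y⌋₊ : ℝ) * (1 + Real.log B) ≤ √Y * (1 + Real.log B) :=
        mul_le_mul_of_nonneg_right hfl (by linarith)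
      linarith
    · have h := USM_fib2 F ⌊√Y⌋₊ hm (fun p => (p.2 : ℝ) ^ 2 * √p.2 * √p.1) (√Y * (B * √B)) (by
        intro z hz
        have hz1 : 1 ≤ z := (Finset.mem_Icc.1 hz).1
        have hz0 : (0 : ℝ) < z := by exact_mod_cast hz1
        have hzB : (z : ℝ) ≤ √Y := by
          have h3 : (z : ℝ) ≤ (⌊√Y⌋₊ : ℝ) := by exact_mod_cast (Finset.mem_Icc.1 hz).2
          linarith
        have h1 : ∑ p ∈ F.filter (fun p => p.2 = z), (p.2 : ℝ) ^ 2 * √p.2 * √p.1 ≤
            ∑ p ∈ F.filter (fun p => p.2 = z), (z : ℝ) ^ 2 * √B := by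
          apply Finset.sum_le_sum
          intro p hp
          have hp2 := Finset.mem_filter.1 hp
          obtain ⟨a, b, c, e⟩ := hF p hp2.1
          rw [USM_sqrt_id, hp2.2]
          rw [hp2.2] at c
          exact mul_le_mul_of_nonneg_left (Real.sqrt_le_sqrt c) (by positivity)
        refine h1.trans ?_
        rw [Finset.sum_const, nsmul_eq_mul]
        have h2 := USM_card2 F B hF' hB0.le z hz1
        calc ((F.filter fun p => p.2 = z).card : ℝ) * ((z : ℝ) ^ 2 * √B) ≤ (B / z) * ((z : ℝ) ^ 2 * √B) :=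
              mul_le_mul_of_nonneg_right h2 (by positivity)
          _ = z * (B * √B) := by
              field_simp
          _ ≤ √Y * (B * √B) := mul_le_mul_of_nonneg_right hzB (by positivity))
      have h4 : (⌊√Y⌋₊ : ℝ) * (√Y * (B * √B)) ≤ √Y * (√Y * (B * √B)) :=
        mul_le_mul_of_nonneg_right hfl (by positivity)
      have h5 : √Y * (√Y * (B * √B)) = Y * (B * √B) := by
        rw [← mul_assoc, Real.mul_self_sqrt (by linarith)]
      linarith

end Pool.Agent.T5
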