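import Pool.Agent.helper8.T5.SpecU

set_option autoImplicit false

namespace Pool.Agent.T5

open Finset NumberField Pool.Agent.helper3.FT Pool.Agent.helper47.RA

theorem UZ1 (hUEC : UEC_stmt) (hUEA : UEA_stmt) (hUSM : USM_stmt) : UZ1_stmt := by
  classical
  intro ε hε
  obtain ⟨C, hC, hmain⟩ := hUEC ε hε
  refine ⟨2 * C, by linarith, ?_⟩
  intro N Y B hN hY hB s Φ hs
  have hY0 : 0 < Y := by linarith
  have hN0 : 0 < N := by linarith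
  set P : Finset (ℕ × ℕ) := (Icc 1 ⌊Y⌋₊ ×ˢ Icc 1 ⌊Y⌋₊).filter
    (fun p => (p.1 : ℝ) * p.2 ≤ Y ∧ Y / 2 < (p.1 : ℝ) * p.2 ∧ (p.2 : ℝ) ^ 2 ≤ B) with hP
  have hPmem : ∀ p : ℕ × ℕ, p ∈ P ↔ (1 ≤ p.1 ∧ 1 ≤ p.2 ∧ (p.1 : ℝ) * p.2 ≤ Y ∧ Y / 2 < (p.1 : ℝ) * p.2 ∧
      (p.2 : ℝ) ^ 2 ≤ B) := by
    intro p
    rw [hP, Finset.mem_filter, Finset.mem_product, Finset.mem_Icc, Finset.mem_Icc]
    constructor
    · rintro ⟨⟨⟨a, _⟩, ⟨b, _⟩⟩, c, d, e⟩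
      exact ⟨a, b, c, d, e⟩
    · rintro ⟨a, b, c, d, e⟩
      have ha : (1 : ℝ) ≤ p.1 := by exact_mod_cast a
      have hb : (1 : ℝ) ≤ p.2 := by exact_mod_cast b
      refine ⟨⟨⟨a, Nat.le_floor ?_⟩, ⟨b, Nat.le_floor ?_⟩⟩, c, d, e⟩
      · nlinarith
      · nlinarith
  have h1 := hmain N Y hN hY s Φ hs P
    (fun D => {a ∈ IA (Φ D).K Y | ((zz (Φ D).Q a : ℕ) : ℝ) ^ 2 ≤ B})
    (fun p hp => ((hPmem p).1 hp).2.2.1)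
    (by
      intro D a ha
      obtain ⟨ha1, ha2⟩ := ha
      obtain ⟨a1, a2, a3, a4, a5, a6⟩ := ha1
      refine ⟨a1, a2, a3, a4, ?_⟩
      obtain ⟨I, b, -, -, -, -, -, -, e1, e2, e3, -⟩ := hUEA (Φ D).K (Φ D).Q a a1 a2
      rw [hPmem]
      have e4 : (Ideal.absNorm a : ℝ) = (rr (Φ D).Q a : ℝ) * (zz (Φ D).Q a : ℝ) := by
        exact_mod_cast e1
      refine ⟨e2, e3, ?_, ?_, ha2⟩
      · rw [← e4]
        exact a6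
      · rw [← e4]
        exact a5)
  refine h1.trans ?_
  obtain ⟨h2, h3⟩ := hUSM.2.1 Y B hY hB P (fun p hp => (hPmem p).1 hp)
  have hYe : 0 < Y ^ ε := Real.rpow_pos_of_pos hY0 _
  have hsN : 0 < √N := Real.sqrt_pos.2 hN0
  have h4 : ∑ p ∈ P, (√N / (p.1 : ℝ) + (p.2 : ℝ) ^ 2 * √p.2 * √p.1 / √N) ≤
      2 * (√B * √N + B * (Y * √Y) / √N) := by
    have h5 : ∑ p ∈ P, (√N / (p.1 : ℝ) + (p.2 : ℝ) ^ 2 * √p.2 * √p.1 / √N) =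
        √N * ∑ p ∈ P, 1 / (p.1 : ℝ) + (∑ p ∈ P, (p.2 : ℝ) ^ 2 * √p.2 * √p.1) / √N := by
      rw [Finset.sum_add_distrib, Finset.mul_sum, Finset.sum_div]
      congr 1
      apply Finset.sum_congr rfl
      intro p _
      ring
    rw [h5]
    have h6 : √N * ∑ p ∈ P, 1 / (p.1 : ℝ) ≤ √N * (2 * √B) := mul_le_mul_of_nonneg_left h2 hsN.le
    have h7 : (∑ p ∈ P, (p.2 : ℝ) ^ 2 * √p.2 * √p.1) / √N ≤ (B * (Y * √Y)) / √N :=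
      div_le_div_of_nonneg_right h3 hsN.le
    have h8 : 0 ≤ B * (Y * √Y) / √N := by positivity
    nlinarith
  calc C * Y ^ ε * ∑ p ∈ P, (√N / (p.1 : ℝ) + (p.2 : ℝ) ^ 2 * √p.2 * √p.1 / √N)
      ≤ C * Y ^ ε * (2 * (√B * √N + B * (Y * √Y) / √N)) := mul_le_mul_of_nonneg_left h4 (by positivity)
    _ = 2 * C * Y ^ ε * (√B * √N + B * (Y * √Y) / √N) := by ring

end Pool.Agent.T5
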