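import Pool.Agent.helper8.T5.SpecU

set_option autoImplicit false

namespace Pool.Agent.T5

open Finset NumberField Pool.Agent.helper3.FT Pool.Agent.helper47.RA

section
variable {K : Type} [Field K] [NumberField K]

theorem UZ2_nat (I J : Ideal (𝓞 K)) (hI : Prim I) (hJ : Prim J) : ∀ n n' : ℕ, n ≠ 0 → n' ≠ 0 →
    Ideal.span {(n' : 𝓞 K)} * I = Ideal.span {(n : 𝓞 K)} * J → I = J := by
  intro n
  induction n using Nat.strong_induction_on with
  | _ n ih =>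
    intro n' hn hn' h
    by_cases h1 : n = 1
    · subst h1
      by_cases h2 : n' = 1
      · subst h2
        simpa using h
      · exfalso
        obtain ⟨q, hq, hqd⟩ := Nat.exists_prime_and_dvd h2
        obtain ⟨m, rfl⟩ := hqd
        apply hJ q hq
        refine ⟨Ideal.span {(m : 𝓞 K)} * I, ?_⟩
        rw [← mul_assoc, Ideal.span_singleton_mul_span_singleton]
        rw [Nat.cast_one, Ideal.span_singleton_one, Ideal.top_mul] at h
        rw [← h]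
        push_cast
        rfl
    · obtain ⟨q, hq, hqd⟩ := Nat.exists_prime_and_dvd h1
      by_cases h3 : q ∣ n'
      · obtain ⟨m, rfl⟩ := hqd
        obtain ⟨m', rfl⟩ := h3
        have hm : m ≠ 0 := right_ne_zero_of_mul hn
        have hm' : m' ≠ 0 := right_ne_zero_of_mul hn'
        have hlt : m < q * m := by
          have := hq.two_le
          have : 0 < m := Nat.pos_of_ne_zero hm
          nlinarith
        apply ih m hlt m' hm hm'
        have hq0 : Ideal.span {(q : 𝓞 K)} ≠ 0 := by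
          rw [Ne, Ideal.zero_eq_bot, Ideal.span_singleton_eq_bot]
          exact_mod_cast hq.ne_zero
        apply mul_left_cancel₀ hq0
        rw [← mul_assoc, ← mul_assoc, Ideal.span_singleton_mul_span_singleton,
          Ideal.span_singleton_mul_span_singleton]
        push_cast at h
        exact h
      · exfalso
        apply hI q hq
        have hcop : IsCoprime (Ideal.span {(q : 𝓞 K)}) (Ideal.span {(n' : 𝓞 K)}) := by
          rw [Ideal.isCoprime_span_singleton_iff]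
          have h4 : IsCoprime (q : ℤ) (n' : ℤ) :=
            Nat.isCoprime_iff_coprime.2 ((Nat.Prime.coprime_iff_not_dvd hq).2 h3)
          have h5 := h4.map (Int.castRingHom (𝓞 K))
          simpa using h5
        apply hcop.dvd_of_dvd_mul_left
        rw [h]
        obtain ⟨m, rfl⟩ := hqd
        refine ⟨Ideal.span {(m : 𝓞 K)} * J, ?_⟩
        rw [← mul_assoc, Ideal.span_singleton_mul_span_singleton]
        push_cast
        rfl

omit [NumberField K] in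
theorem UZ2_span_int (c : ℤ) : Ideal.span {(c : 𝓞 K)} = Ideal.span {((c.natAbs : ℕ) : 𝓞 K)} := by
  rw [Ideal.span_singleton_eq_span_singleton]
  have h1 : Associated c (c.natAbs : ℤ) := Int.associated_natAbs c
  have h2 := h1.map (Int.castRingHom (𝓞 K))
  simpa using h2

theorem UZ2_int (I J : Ideal (𝓞 K)) (hI : Prim I) (hJ : Prim J) (c c' : ℤ) (hc : c ≠ 0) (hc' : c' ≠ 0)
    (h : Ideal.span {(c' : 𝓞 K)} * I = Ideal.span {(c : 𝓞 K)} * J) : I = J := by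
  rw [UZ2_span_int c, UZ2_span_int c'] at h
  exact UZ2_nat I J hI hJ c.natAbs c'.natAbs (Int.natAbs_ne_zero.2 hc) (Int.natAbs_ne_zero.2 hc') h

theorem UZ2_princ (I : Ideal (𝓞 K)) (x y : 𝓞 K) (hx : x ≠ 0) (h : I * Ideal.span {x} = Ideal.span {y}) :
    I.IsPrincipal := by
  have h1 : y ∈ Ideal.span {x} := by
    have h2 : y ∈ Ideal.span {y} := Ideal.mem_span_singleton_self y
    have h3 : I * Ideal.span {x} ≤ Ideal.span {x} := Ideal.mul_le_right
    have h4 : y ∈ I * Ideal.span {x} := by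
      rw [h]
      exact h2
    exact h3 h4
  obtain ⟨z, hz⟩ := Ideal.mem_span_singleton'.1 h1
  refine ⟨z, ?_⟩
  have hx0 : Ideal.span {x} ≠ 0 := by
    rw [Ne, Ideal.zero_eq_bot, Ideal.span_singleton_eq_bot]
    exact hx
  rw [Ideal.submodule_span_eq]
  apply mul_right_cancel₀ hx0
  rw [h, Ideal.span_singleton_mul_span_singleton, hz]

/-- `L` is not principal -/
theorem UZ2_notprinc (Q : QF K) (F : Full Q) (h : ¬ F.a.IsPrincipal) : ¬ F.L.IsPrincipal := by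
  intro hL
  obtain ⟨l, hl⟩ := hL
  rw [Ideal.submodule_span_eq] at hl
  have hane : F.a ≠ ⊥ := by
    intro h0
    have h1 := F.na
    rw [h0, Ideal.absNorm_bot] at h1
    exact F.hZ (abs_eq_zero.1 h1.symm)
  have hLne : F.L ≠ ⊥ := by
    intro h0
    have h1 := F.nL
    rw [h0, Ideal.absNorm_bot] at h1
    exact F.hΛ (abs_eq_zero.1 h1.symm)
  have hl0 : l ≠ 0 := by
    intro h0
    apply hLne
    rw [hl, h0]
    simp
  have h2 : (F.a ^ 2).IsPrincipal := by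
    apply UZ2_princ (F.a ^ 2) l F.β hl0
    rw [← hl, F.iβ]
  obtain ⟨x, hx⟩ := h2
  rw [Ideal.submodule_span_eq] at hx
  have hx0 : x ≠ 0 := by
    intro h0
    rw [h0] at hx
    have h3 : F.a ^ 2 = ⊥ := by rw [hx]; simp
    exact hane (pow_eq_zero_iff (two_ne_zero) |>.1 h3)
  apply h
  apply UZ2_princ F.a (x ^ 2) F.α (pow_ne_zero 2 hx0)
  rw [F.iα, ← Ideal.span_singleton_pow, ← hx]
  ring

theorem UZ2_inj (Q : QF K) (F F' : Full Q) (h0 : Q.Y F.γ = 0) (h0' : Q.Y F'.γ = 0) (hL : F.L = F'.L) :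
    F.a = F'.a := by
  obtain ⟨c, hc⟩ := (Q.Y_eq_zero_iff F.γ).1 h0
  obtain ⟨c', hc'⟩ := (Q.Y_eq_zero_iff F'.γ).1 h0'
  have hLne : F.L ≠ ⊥ := by
    intro h0
    have h1 := F.nL
    rw [h0, Ideal.absNorm_bot] at h1
    exact F.hΛ (abs_eq_zero.1 h1.symm)
  have hane : ∀ G : Full Q, G.γ ≠ 0 := by
    intro G hG
    have h1 := G.nγ
    rw [hG, zero_mul] at h1
    have h2 : ((G.Z * G.Λ ^ 2 : ℤ) : 𝓞 K) = ((0 : ℤ) : 𝓞 K) := by
      push_cast
      exact h1.symm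
    have h3 : G.Z * G.Λ ^ 2 = 0 := by exact_mod_cast h2
    rcases mul_eq_zero.1 h3 with h4 | h4
    · exact G.hZ h4
    · exact G.hΛ (pow_eq_zero_iff (two_ne_zero) |>.1 h4)
  have hcn : c ≠ 0 := by
    intro h
    apply hane F
    rw [hc, h]
    simp
  have hcn' : c' ≠ 0 := by
    intro h
    apply hane F'
    rw [hc', h]
    simp
  have h1 : Ideal.span {(c : 𝓞 K)} = Q.bar F.a * F.L ^ 2 := by rw [← hc]; exact F.iγ
  have h2 : Ideal.span {(c' : 𝓞 K)} = Q.bar F'.a * F.L ^ 2 := by rw [← hc', hL]; exact F'.iγ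
  have h3 : Q.bar F.a = Q.bar F'.a := by
    apply UZ2_int (Q.bar F.a) (Q.bar F'.a) (h52_prim_bar Q F.pa) (h52_prim_bar Q F'.pa) c c' hcn hcn'
    have hL2 : F.L ^ 2 ≠ 0 := by
      rw [Ideal.zero_eq_bot]
      intro h
      exact hLne (pow_eq_zero_iff (two_ne_zero) |>.1 h)
    apply mul_right_cancel₀ hL2
    rw [mul_assoc, ← h1, mul_assoc, ← h2, mul_comm]
  have h4 := congrArg Q.bar h3
  rw [Q.bar_bar, Q.bar_bar] at h4
  exact h4

end

theorem UZ2 (hUEC : UEC_stmt) (hUEA : UEA_stmt) (hUZC : UZC_stmt) (hUSM : USM_stmt) : UZ2_stmt := by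
  classical
  intro ε hε
  obtain ⟨C, hC, hmain⟩ := hUEC ε hε
  refine ⟨C, hC, ?_⟩
  intro N Y B hN hY hB s Φ hs
  have hY0 : 0 < Y := by linarith
  have hB0 : 0 < B := by linarith
  have hN0 : 0 < N := by linarith
  set P : Finset (ℕ × ℕ) := (Icc 1 ⌊B⌋₊ ×ˢ Icc 1 ⌊B⌋₊).filter
    (fun p => (p.1 : ℝ) * p.2 ≤ B ∧ (p.2 : ℝ) ^ 2 ≤ Y) with hP
  have hPmem : ∀ p : ℕ × ℕ, p ∈ P ↔ (1 ≤ p.1 ∧ 1 ≤ p.2 ∧ (p.1 : ℝ) * p.2 ≤ B ∧ (p.2 : ℝ) ^ 2 ≤ Y) := by
    intro p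
    rw [hP, Finset.mem_filter, Finset.mem_product, Finset.mem_Icc, Finset.mem_Icc]
    constructor
    · rintro ⟨⟨⟨a, _⟩, ⟨b, _⟩⟩, c, e⟩
      exact ⟨a, b, c, e⟩
    · rintro ⟨a, b, c, e⟩
      have ha : (1 : ℝ) ≤ p.1 := by exact_mod_cast a
      have hb : (1 : ℝ) ≤ p.2 := by exact_mod_cast b
      refine ⟨⟨⟨a, Nat.le_floor ?_⟩, ⟨b, Nat.le_floor ?_⟩⟩, c, e⟩
      · nlinarith
      · nlinarith
  set S : ∀ D : s, Set (Ideal (𝓞 (Φ D).K)) := fun D => {a ∈ IA (Φ D).K Y | ∃ F : Full (Φ D).Q, F.a = a ∧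
    0 < F.Λ ∧ (F.Λ : ℝ) ≤ B ∧ (Φ D).Q.Y F.γ = 0} with hS
  have hch : ∀ D : s, ∀ a : Ideal (𝓞 (Φ D).K), ∃ L : Ideal (𝓞 (Φ D).K), a ∈ S D →
      ∃ F : Full (Φ D).Q, F.a = a ∧ 0 < F.Λ ∧ (F.Λ : ℝ) ≤ B ∧ (Φ D).Q.Y F.γ = 0 ∧ F.L = L := by
    intro D a
    by_cases h : a ∈ S D
    · obtain ⟨F, h1, h2, h3, h4⟩ := h.2
      exact ⟨F.L, fun _ => ⟨F, h1, h2, h3, h4, rfl⟩⟩
    · exact ⟨⊥, fun h' => absurd h' h⟩
  choose f hf using hch
  have h1 := hmain N B hN hB s Φ hs P (fun D => f D '' S D)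
    (fun p hp => ((hPmem p).1 hp).2.2.1)
    (by
      rintro D L ⟨a, ha, rfl⟩
      obtain ⟨F, g1, g2, g3, g4, g5⟩ := hf D a ha
      rw [← g5]
      obtain ⟨⟨a1, a2, a3, a4, a5, a6⟩, -⟩ := ha
      have hLne : F.L ≠ ⊥ := by
        intro h0
        have h1 := F.nL
        rw [h0, Ideal.absNorm_bot] at h1
        exact F.hΛ (abs_eq_zero.1 h1.symm)
      refine ⟨hLne, F.pL, ?_, ?_, ?_⟩
      · rw [← F.iα']
        exact ⟨F.α', rfl⟩
      · apply UZ2_notprinc (Φ D).Q F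
        rw [g1]
        exact a4
      · obtain ⟨I, b, -, -, -, -, -, -, e1, e2, e3, -⟩ := hUEA (Φ D).K (Φ D).Q F.L hLne F.pL
        rw [hPmem]
        have e4 : (Ideal.absNorm F.L : ℝ) = (rr (Φ D).Q F.L : ℝ) * (zz (Φ D).Q F.L : ℝ) := by
          exact_mod_cast e1
        refine ⟨e2, e3, ?_, ?_⟩
        · rw [← e4]
          have h5 : ((Ideal.absNorm F.L : ℤ) : ℝ) = ((|F.Λ| : ℤ) : ℝ) := by rw [F.nL]
          rw [abs_of_pos g2] at h5
          have h6 : (Ideal.absNorm F.L : ℝ) = (F.Λ : ℝ) := by exact_mod_cast h5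
          rw [h6]
          exact g3
        · obtain ⟨F', s1, s2, s3, s4, s5, s6, s7, s8⟩ := exists_swap F
          have h7 := hUZC (Φ D).K (Φ D).Q F' (by rw [s3]; exact g4)
          rw [s1, s8, ← F.na, g1] at h7
          have h8 : ((zz (Φ D).Q F.L : ℕ) : ℝ) ^ 2 ≤ (Ideal.absNorm a : ℝ) := by exact_mod_cast h7
          exact h8.trans a6)
  have h2 : (∑ D : s, ((S D).ncard : ℝ)) = ∑ D : s, ((f D '' S D).ncard : ℝ) := by
    apply Finset.sum_congr rfl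
    intro D _
    congr 1
    symm
    apply Set.InjOn.ncard_image
    intro a ha a' ha' haa
    obtain ⟨F, g1, g2, g3, g4, g5⟩ := hf D a ha
    obtain ⟨F', g1', g2', g3', g4', g5'⟩ := hf D a' ha'
    rw [← g1, ← g1']
    apply UZ2_inj (Φ D).Q F F' g4 g4'
    rw [g5, g5', haa]
  rw [h2]
  refine h1.trans ?_
  obtain ⟨h3, h4⟩ := hUSM.2.2 Y B hY hB P (fun p hp => (hPmem p).1 hp)
  have hsN : 0 < √N := Real.sqrt_pos.2 hN0
  have hBe : 0 < B ^ ε := Real.rpow_pos_of_pos hB0 _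
  have h5 : ∑ p ∈ P, (√N / (p.1 : ℝ) + (p.2 : ℝ) ^ 2 * √p.2 * √p.1 / √N) ≤
      √Y * √N * (1 + Real.log B) + Y * (B * √B) / √N := by
    have h6 : ∑ p ∈ P, (√N / (p.1 : ℝ) + (p.2 : ℝ) ^ 2 * √p.2 * √p.1 / √N) =
        √N * ∑ p ∈ P, 1 / (p.1 : ℝ) + (∑ p ∈ P, (p.2 : ℝ) ^ 2 * √p.2 * √p.1) / √N := by
      rw [Finset.sum_add_distrib, Finset.mul_sum, Finset.sum_div]
      congr 1
      apply Finset.sum_congr rfl
      intro p _
      ring
    rw [h6]
    have h7 : √N * ∑ p ∈ P, 1 / (p.1 : ℝ) ≤ √N * (√Y * (1 + Real.log B)) :=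
      mul_le_mul_of_nonneg_left h3 hsN.le
    have h8 : (∑ p ∈ P, (p.2 : ℝ) ^ 2 * √p.2 * √p.1) / √N ≤ (Y * (B * √B)) / √N :=
      div_le_div_of_nonneg_right h4 hsN.le
    nlinarith
  exact mul_le_mul_of_nonneg_left h5 (by positivity)

end Pool.Agent.T5
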